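import Mathlib
import Pool.Agent.X325.ET.Fam
import Pool.Agent.Y193.FG.Alg

/-! Polynomial conditions on a family of curves are algebraic conditions on the parameters. -/

set_option autoImplicit false

open Polynomial Topology Set

namespace Pool.Agent.X316.ET

open Pool.Agent.Y193.FG Pool.Agent.X325.ET

variable {a m N : ℕ}

/-- the polynomial `∏ (x - e i)` for a fixed `x` -/
noncomputable def gx (e : Fin m → MvPolynomial (Fin a) ℂ) (x : ℂ) : MvPolynomial (Fin a) ℂ :=
  ∏ i, (MvPolynomial.C x - e i)

theorem eval_gx (e : Fin m → MvPolynomial (Fin a) ℂ) (x : ℂ) (w : Fin a → ℂ) :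
    MvPolynomial.eval w (gx e x) = ∏ i, (x - MvPolynomial.eval w (e i)) := by
  simp [gx, map_prod]

/-- the polynomial `P` for a fixed `x` -/
noncomputable def Px (N : ℕ) (c : Fin N → MvPolynomial (Fin (a + 1)) ℂ) (x : ℂ) :
    Polynomial (MvPolynomial (Fin a) ℂ) :=
  X ^ N + ∑ j : Fin N, C (MvPolynomial.aeval (Fin.snoc (α := fun _ => MvPolynomial (Fin a) ℂ)
    (fun i => MvPolynomial.X i) (MvPolynomial.C x)) (c j)) * X ^ (j : ℕ)

theorem Px_monic (c : Fin N → MvPolynomial (Fin (a + 1)) ℂ) (x : ℂ) : (Px N c x).Monic :=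
  Polynomial.monic_X_pow_add (Polynomial.degree_sum_fin_lt _)

theorem eval_snocx (w : Fin a → ℂ) (x : ℂ) (g : MvPolynomial (Fin (a + 1)) ℂ) :
    MvPolynomial.eval w (MvPolynomial.aeval (Fin.snoc (α := fun _ => MvPolynomial (Fin a) ℂ)
      (fun i => MvPolynomial.X i) (MvPolynomial.C x)) g) =
      MvPolynomial.eval (Fin.snoc (α := fun _ => ℂ) w x) g := by
  induction g using MvPolynomial.induction_on with
  | C z => simp
  | add p q hp hq => rw [map_add, map_add, hp, hq, map_add]
  | mul_X p j hp =>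
    rw [map_mul, map_mul, hp, map_mul, MvPolynomial.aeval_X, MvPolynomial.eval_X]
    congr 1
    refine Fin.lastCases ?_ (fun i => ?_) j
    · simp
    · simp

theorem Px_map (c : Fin N → MvPolynomial (Fin (a + 1)) ℂ) (x : ℂ) (w : Fin a → ℂ) :
    (Px N c x).map (MvPolynomial.eval w) = etP N c w x := by
  unfold Px etP
  rw [Polynomial.map_add, Polynomial.map_pow, Polynomial.map_X, Polynomial.map_sum]
  congr 1
  refine Finset.sum_congr rfl (fun j _ => ?_)
  rw [Polynomial.map_mul, Polynomial.map_C, Polynomial.map_pow, Polynomial.map_X, eval_snocx]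

/-- the point `(w, x, s, z)` -/
def pt3 (w : Fin a → ℂ) (x s z : ℂ) : Fin (a + 3) → ℂ := Fin.append w ![x, s, z]

theorem elim_z (e : Fin m → MvPolynomial (Fin a) ℂ) (x : ℂ) (G : MvPolynomial (Fin (a + 3)) ℂ) :
    ∃ (K : ℕ) (Q : Polynomial (MvPolynomial (Fin a) ℂ)), ∀ w s z,
      z * MvPolynomial.eval w (gx e x) = 1 →
      MvPolynomial.eval (pt3 w x s z) G * MvPolynomial.eval w (gx e x) ^ K =
        (Q.map (MvPolynomial.eval w)).eval s := by
  induction G using MvPolynomial.induction_on with
  | C z =>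
    refine ⟨0, C (MvPolynomial.C z), fun w s z' _ => ?_⟩
    simp
  | add p q hp hq =>
    obtain ⟨K, Q, h⟩ := hp
    obtain ⟨K', Q', h'⟩ := hq
    refine ⟨K + K', Q * C (gx e x ^ K') + Q' * C (gx e x ^ K), fun w s z hz => ?_⟩
    have h1 := h w s z hz
    have h2 := h' w s z hz
    simp only [Polynomial.map_add, Polynomial.map_mul, Polynomial.map_C, eval_add, eval_mul,
      eval_C, map_pow, map_add, Polynomial.map_pow, eval_pow]
    rw [← h1, ← h2]
    ring
  | mul_X p j hp =>
    obtain ⟨K, Q, h⟩ := hp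
    refine Fin.addCases (fun i => ?_) (fun i => ?_) j
    · refine ⟨K, Q * C (MvPolynomial.X i), fun w s z hz => ?_⟩
      have h1 := h w s z hz
      have h2 : pt3 w x s z (Fin.castAdd 3 i) = w i := Fin.append_left _ _ _
      simp only [Polynomial.map_mul, Polynomial.map_C, eval_mul, eval_C, map_mul,
        MvPolynomial.eval_X, h2]
      rw [← h1]
      ring
    · have h2 : ∀ w s z, pt3 w x s z (Fin.natAdd a i) = (![x, s, z] : Fin 3 → ℂ) i :=
        fun w s z => Fin.append_right _ _ _
      fin_cases i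
      · refine ⟨K, Q * C (MvPolynomial.C x), fun w s z hz => ?_⟩
        have h1 := h w s z hz
        have h3 := h2 w s z
        simp only [Polynomial.map_mul, Polynomial.map_C, eval_mul, eval_C, map_mul,
          MvPolynomial.eval_X, MvPolynomial.eval_C, h3]
        rw [← h1]
        show _ * x * _ = _
        ring
      · refine ⟨K, Q * X, fun w s z hz => ?_⟩
        have h1 := h w s z hz
        have h3 := h2 w s z
        simp only [Polynomial.map_mul, Polynomial.map_X, eval_mul, eval_X, map_mul,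
          MvPolynomial.eval_X, h3]
        rw [← h1]
        show _ * s * _ = _
        ring
      · refine ⟨K + 1, Q, fun w s z hz => ?_⟩
        have h1 := h w s z hz
        have h3 := h2 w s z
        simp only [map_mul, MvPolynomial.eval_X, h3]
        rw [← h1]
        show MvPolynomial.eval _ p * z * _ = _
        rw [pow_succ]
        linear_combination (MvPolynomial.eval (pt3 w x s z) p *
          MvPolynomial.eval w (gx e x) ^ K) * hz

theorem dvd_of_roots {P Q : Polynomial ℂ} (hP : P.Monic)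
    (hs : ∀ s, P.eval s = 0 → P.derivative.eval s ≠ 0) (h : ∀ s, P.eval s = 0 → Q.eval s = 0) :
    P ∣ Q := by
  by_cases hQ : Q = 0
  · rw [hQ]
    exact dvd_zero _
  have hnd : P.roots.Nodup := by
    rw [Multiset.nodup_iff_count_le_one]
    intro b
    rw [count_roots]
    by_contra hcon
    push Not at hcon
    have h1 := (one_lt_rootMultiplicity_iff_isRoot hP.ne_zero).mp hcon
    exact hs b h1.1 h1.2
  have hle : P.roots ≤ Q.roots := by
    rw [Multiset.le_iff_subset hnd]
    intro b hb
    rw [mem_roots hP.ne_zero] at hb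
    rw [mem_roots hQ]
    exact h b hb
  have hsp := IsAlgClosed.splits P
  rw [hsp.eq_prod_roots_of_monic hP]
  rw [(IsAlgClosed.splits Q).eq_prod_roots]
  exact dvd_mul_of_dvd_right (Multiset.prod_dvd_prod_of_le (Multiset.map_le_map hle)) _

/-- the condition that `G` vanishes on the curve is algebraic -/
theorem algCond (c : Fin N → MvPolynomial (Fin (a + 1)) ℂ) (e : Fin m → MvPolynomial (Fin a) ℂ)
    (G : MvPolynomial (Fin (a + 3)) ℂ) : ∃ A : Set (Fin a → ℂ), AlgSet A ∧
      (∀ w ∈ A, ∀ x s z, z * ∏ i, (x - MvPolynomial.eval w (e i)) = 1 →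
        (etP N c w x).eval s = 0 → MvPolynomial.eval (pt3 w x s z) G = 0) ∧
      (∀ w, (∀ x, (∀ i, x ≠ MvPolynomial.eval w (e i)) → ∀ s, (etP N c w x).eval s = 0 →
          (etP N c w x).derivative.eval s ≠ 0) →
        (∀ x s z, z * ∏ i, (x - MvPolynomial.eval w (e i)) = 1 →
          (etP N c w x).eval s = 0 → MvPolynomial.eval (pt3 w x s z) G = 0) → w ∈ A) := by
  choose K Q hQ using fun x => elim_z e x G
  refine ⟨{w | ∀ F ∈ {F : MvPolynomial (Fin a) ℂ | ∃ (x : ℂ) (k : ℕ),
    F = gx e x * (Q x %ₘ Px N c x).coeff k}, MvPolynomial.eval w F = 0}, ⟨_, rfl⟩, ?_, ?_⟩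
  · intro w hw x s z hz hs
    rw [← eval_gx] at hz
    have hg : MvPolynomial.eval w (gx e x) ≠ 0 := right_ne_zero_of_mul_eq_one hz
    have h1 : ((Q x %ₘ Px N c x).map (MvPolynomial.eval w)) = 0 := by
      ext k
      rw [coeff_map, coeff_zero]
      have h2 := hw _ ⟨x, k, rfl⟩
      rw [map_mul] at h2
      exact (mul_eq_zero.mp h2).resolve_left hg
    have h3 : ((Q x).map (MvPolynomial.eval w)).eval s = 0 := by
      have h4 := congrArg (fun f => (Polynomial.map (MvPolynomial.eval w) f).eval s)
        (modByMonic_add_div (Q x) (Px N c x))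
      simp only [Polynomial.map_add, Polynomial.map_mul, h1, Px_map, eval_add, eval_mul, hs,
        eval_zero, zero_mul, add_zero] at h4
      exact h4.symm
    have h5 := hQ x w s z hz
    rw [h3] at h5
    exact (mul_eq_zero.mp h5).resolve_right (pow_ne_zero _ hg)
  · rintro w hs hG _ ⟨x, k, rfl⟩
    rw [map_mul]
    by_cases hg : MvPolynomial.eval w (gx e x) = 0
    · rw [hg, zero_mul]
    · have hx : ∀ i, x ≠ MvPolynomial.eval w (e i) := by
        intro i h
        apply hg
        rw [eval_gx]
        exact Finset.prod_eq_zero (Finset.mem_univ i) (sub_eq_zero.mpr h)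
      have h1 : etP N c w x ∣ (Q x).map (MvPolynomial.eval w) := by
        refine dvd_of_roots (etP_monic w x) (hs x hx) (fun s h => ?_)
        have h2 := hQ x w s (MvPolynomial.eval w (gx e x))⁻¹ (inv_mul_cancel₀ hg)
        rw [← h2, hG x s _ (by rw [← eval_gx]; exact inv_mul_cancel₀ hg) h, zero_mul]
      have h3 : (Q x %ₘ Px N c x).map (MvPolynomial.eval w) = 0 := by
        rw [map_modByMonic _ (Px_monic c x), Px_map]
        exact (modByMonic_eq_zero_iff_dvd (etP_monic w x)).mpr h1
      have h4 : MvPolynomial.eval w ((Q x %ₘ Px N c x).coeff k) = 0 := by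
        rw [← coeff_map, h3, coeff_zero]
      rw [h4, mul_zero]

end Pool.Agent.X316.ET
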