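import Mathlib
import Pool.Agent.W327.F4.AcC

/-! The connected sets `f(x, τ) = 0, D(x) ≠ 0`. -/

set_option autoImplicit false

open Topology Set Polynomial Filter

namespace Pool.Agent.X316.ET

open Pool.Agent.W327.F4

variable {n : ℕ}

/-- near a simple root the zero set is locally path connected -/
theorem loc_path (f : Polynomial (MvPolynomial (Fin n) ℂ)) (D : MvPolynomial (Fin n) ℂ)
    (z : (Fin n → ℂ) × ℂ) (h0 : ev z.1 z.2 f = 0) (h1 : ev z.1 z.2 (derivative f) ≠ 0)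
    (hD : MvPolynomial.eval z.1 D ≠ 0) :
    ∀ᶠ z' in 𝓝 z, ev z'.1 z'.2 f = 0 →
      JoinedIn {z : (Fin n → ℂ) × ℂ | ev z.1 z.2 f = 0 ∧ MvPolynomial.eval z.1 D ≠ 0} z z' := by
  obtain ⟨x, τ⟩ := z
  set Φ : (Fin n → ℂ) × ℂ → ℂ := fun z => ev z.1 z.2 f with hΦ
  have hs : HasStrictFDerivAt Φ (fderiv ℂ Φ (x, τ)) (x, τ) := (analytic_ev f (x, τ)).hasStrictFDerivAt
  set L := fderiv ℂ Φ (x, τ) with hL
  have hL1 : L (0, 1) = ev x τ (derivative f) := by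
    have h2 : HasDerivAt (fun t : ℂ => Φ (x, t)) (L (0, 1)) τ := by
      have h3 : HasDerivAt (fun t : ℂ => ((x, t) : (Fin n → ℂ) × ℂ)) ((0 : Fin n → ℂ), (1:ℂ)) τ :=
        (hasDerivAt_const τ x).prodMk (hasDerivAt_id τ)
      exact hs.hasFDerivAt.comp_hasDerivAt τ h3
    have h4 : HasDerivAt (fun t : ℂ => Φ (x, t)) (ev x τ (derivative f)) τ := by
      rw [ev_derivative]
      exact (f.map (MvPolynomial.eval x)).hasDerivAt τ
    exact h2.unique h4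
  set c : ℂ := L (0, 1) with hc
  have hc0 : c ≠ 0 := by rw [hL1]; exact h1
  have hLs : ∀ (v : Fin n → ℂ) (s : ℂ), L (v, s) = L (v, 0) + s * c := by
    intro v s
    have : ((v, s) : (Fin n → ℂ) × ℂ) = (v, 0) + s • (0, 1) := by
      ext <;> simp
    rw [this, map_add, map_smul, smul_eq_mul]
  let P : (Fin n → ℂ) × ℂ →L[ℂ] (Fin n → ℂ) × ℂ :=
    (ContinuousLinearMap.fst ℂ (Fin n → ℂ) ℂ).prod L
  let Q : (Fin n → ℂ) × ℂ →L[ℂ] (Fin n → ℂ) × ℂ :=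
    (ContinuousLinearMap.fst ℂ (Fin n → ℂ) ℂ).prod
      (c⁻¹ • (ContinuousLinearMap.snd ℂ (Fin n → ℂ) ℂ -
        L.comp ((ContinuousLinearMap.fst ℂ (Fin n → ℂ) ℂ).prod 0)))
  have hP : ∀ v s, P (v, s) = (v, L (v, s)) := fun v s => rfl
  have hQ : ∀ v s, Q (v, s) = (v, c⁻¹ * (s - L (v, 0))) := fun v s => rfl
  let E : ((Fin n → ℂ) × ℂ) ≃L[ℂ] ((Fin n → ℂ) × ℂ) :=
    ContinuousLinearEquiv.equivOfInverse P Q (by
      rintro ⟨v, s⟩
      rw [hP, hQ, hLs v s]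
      ext1
      · rfl
      · show c⁻¹ * (L (v, 0) + s * c - L (v, 0)) = s
        field_simp
        ring) (by
      rintro ⟨v, s⟩
      rw [hQ, hP, hLs]
      ext1
      · rfl
      · show L (v, 0) + c⁻¹ * (s - L (v, 0)) * c = s
        field_simp
        ring)
  let Ψ : (Fin n → ℂ) × ℂ → (Fin n → ℂ) × ℂ := fun z => (z.1, Φ z)
  have hΨ : HasStrictFDerivAt Ψ (E : (Fin n → ℂ) × ℂ →L[ℂ] (Fin n → ℂ) × ℂ) (x, τ) :=
    hasStrictFDerivAt_fst.prodMk hs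
  let H := hΨ.toOpenPartialHomeomorph Ψ
  have hHc : (H : (Fin n → ℂ) × ℂ → (Fin n → ℂ) × ℂ) = Ψ := rfl
  have hsrc : (x, τ) ∈ H.source := hΨ.mem_toOpenPartialHomeomorph_source
  have htgt : (x, (0:ℂ)) ∈ H.target := by
    have h5 : H (x, τ) ∈ H.target := H.map_source hsrc
    have h6 : H (x, τ) = (x, (0:ℂ)) := by
      rw [hHc]
      exact Prod.ext rfl h0
    rwa [h6] at h5
  -- a ball
  have hcD : Continuous (fun y : Fin n → ℂ => MvPolynomial.eval y D) :=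
    MvPolynomial.continuous_eval D
  obtain ⟨ε, hε, hball⟩ : ∃ ε > 0, ∀ y ∈ Metric.ball x ε, (y, (0:ℂ)) ∈ H.target ∧
      MvPolynomial.eval y D ≠ 0 := by
    have h7 : ∀ᶠ y in 𝓝 x, (y, (0:ℂ)) ∈ H.target := by
      have : Tendsto (fun y : Fin n → ℂ => (y, (0:ℂ))) (𝓝 x) (𝓝 (x, (0:ℂ))) :=
        (Continuous.prodMk continuous_id continuous_const).tendsto x
      exact this (H.open_target.mem_nhds htgt)
    have h8 : ∀ᶠ y in 𝓝 x, MvPolynomial.eval y D ≠ 0 := hcD.continuousAt.eventually_ne hD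
    exact Metric.eventually_nhds_iff_ball.mp (h7.and h8)
  have h9 : ∀ᶠ z' in 𝓝 (x, τ), z' ∈ H.source ∧ z'.1 ∈ Metric.ball x ε := by
    have h9a : ∀ᶠ z' in 𝓝 (x, τ), z' ∈ H.source := H.open_source.mem_nhds hsrc
    have h9b : ∀ᶠ z' : (Fin n → ℂ) × ℂ in 𝓝 (x, τ), z'.1 ∈ Metric.ball x ε :=
      (continuous_fst.tendsto (x, τ)) (Metric.ball_mem_nhds x hε)
    exact h9a.and h9b
  filter_upwards [h9] with z' hz' hz'0
  obtain ⟨hz's, hz'b⟩ := hz'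
  obtain ⟨x', τ'⟩ := z'
  -- the path
  let γ : ℝ → Fin n → ℂ := fun t => x + (t : ℂ) • (x' - x)
  have hγc : Continuous γ := by
    refine continuous_const.add ?_
    exact (Complex.continuous_ofReal.smul continuous_const)
  have hγb : ∀ t ∈ Icc (0:ℝ) 1, γ t ∈ Metric.ball x ε := by
    intro t ht
    rw [Metric.mem_ball, dist_eq_norm] at hz'b ⊢
    have : γ t - x = (t : ℂ) • (x' - x) := by simp [γ]
    rw [this, norm_smul]
    have h10 : ‖(t : ℂ)‖ ≤ 1 := by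
      rw [Complex.norm_real, Real.norm_eq_abs, abs_of_nonneg ht.1]
      exact ht.2
    calc ‖(t : ℂ)‖ * ‖x' - x‖ ≤ 1 * ‖x' - x‖ := by gcongr
      _ < ε := by rw [one_mul]; exact hz'b
  let δ : ℝ → (Fin n → ℂ) × ℂ := fun t => H.symm (γ t, (0:ℂ))
  have hδ : ∀ t ∈ Icc (0:ℝ) 1, δ t ∈ H.source ∧ Ψ (δ t) = (γ t, 0) := by
    intro t ht
    have h11 := (hball _ (hγb t ht)).1
    exact ⟨H.map_target h11, H.right_inv h11⟩
  have hδV : ∀ t ∈ Icc (0:ℝ) 1, ev (δ t).1 (δ t).2 f = 0 ∧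
      MvPolynomial.eval (δ t).1 D ≠ 0 := by
    intro t ht
    have h12 := (hδ t ht).2
    have h13 : (δ t).1 = γ t := congrArg Prod.fst h12
    refine ⟨congrArg Prod.snd h12, ?_⟩
    rw [h13]
    exact (hball _ (hγb t ht)).2
  refine JoinedIn.ofLine (f := δ) ?_ ?_ ?_ ?_
  · intro t ht
    have h11 := (hball _ (hγb t ht)).1
    exact ((H.continuousAt_symm h11).comp
      (f := fun t : ℝ => ((γ t, (0:ℂ)) : (Fin n → ℂ) × ℂ))
      (Continuous.prodMk hγc continuous_const).continuousAt).continuousWithinAt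
  · have h14 : γ 0 = x := by simp [γ]
    show H.symm (γ 0, (0:ℂ)) = (x, τ)
    rw [h14]
    have h15 : H (x, τ) = (x, (0:ℂ)) := Prod.ext rfl h0
    rw [← h15]
    exact H.left_inv hsrc
  · have h14 : γ 1 = x' := by simp [γ]
    show H.symm (γ 1, (0:ℂ)) = (x', τ')
    rw [h14]
    have h15 : H (x', τ') = (x', (0:ℂ)) := Prod.ext rfl hz'0
    rw [← h15]
    exact H.left_inv hz's
  · rintro _ ⟨t, ht, rfl⟩
    exact hδV t ht

/-- the set `f = 0, D ≠ 0` is path connected if `f` is irreducible -/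
theorem pathConn (f : Polynomial (MvPolynomial (Fin n) ℂ)) (D : MvPolynomial (Fin n) ℂ)
    (hf : f.Monic) (hfi : Irreducible f) (hD : D ≠ 0)
    (hs : ∀ x τ, ev x τ f = 0 → MvPolynomial.eval x D ≠ 0 → ev x τ (derivative f) ≠ 0) :
    IsPathConnected {z : (Fin n → ℂ) × ℂ | ev z.1 z.2 f = 0 ∧ MvPolynomial.eval z.1 D ≠ 0} := by
  set V : Set ((Fin n → ℂ) × ℂ) := {z | ev z.1 z.2 f = 0 ∧ MvPolynomial.eval z.1 D ≠ 0} with hV
  have hdeg : 0 < f.natDegree := by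
    rcases Nat.eq_zero_or_pos f.natDegree with h | h
    · exact absurd (hf.natDegree_eq_zero.mp h ▸ isUnit_one) hfi.not_isUnit
    · exact h
  have hne : V.Nonempty := by
    obtain ⟨x, hx⟩ : ∃ x, MvPolynomial.eval x D ≠ 0 := by
      by_contra h
      push Not at h
      exact hD (MvPolynomial.funext (fun x => by rw [h x, map_zero]))
    have h1 : (f.map (MvPolynomial.eval x)).degree ≠ 0 := by
      rw [hf.degree_map]
      exact (natDegree_pos_iff_degree_pos.mp hdeg).ne'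
    obtain ⟨τ, hτ⟩ := IsAlgClosed.exists_root _ h1
    exact ⟨(x, τ), hτ, hx⟩
  have hpre : IsPreconnected V := by
    have h2 := irred_connected f (C D) hf hfi (hf.not_dvd_of_natDegree_lt
      (by rwa [Ne, C_eq_zero]) (by rwa [natDegree_C])) (fun x τ h3 h4 => hs x τ h3 (by rwa [ev_C] at h4))
    simp only [ev_C] at h2
    exact h2
  obtain ⟨z₀, hz₀⟩ := hne
  refine ⟨z₀, hz₀, fun {z} hz => ?_⟩
  by_contra hcon
  -- the set of the points joined to z₀ is clopen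
  have hloc : ∀ z ∈ V, ∃ U : Set ((Fin n → ℂ) × ℂ), IsOpen U ∧ z ∈ U ∧
      ∀ z' ∈ U, z' ∈ V → JoinedIn V z z' := by
    intro z hz
    have h5 := loc_path f D z hz.1 (hs _ _ hz.1 hz.2) hz.2
    obtain ⟨U, hU, hUo, hzU⟩ := mem_nhds_iff.mp h5
    exact ⟨U, hUo, hzU, fun z' h6 h7 => hU h6 h7.1⟩
  choose! U hUo hzU hU using hloc
  let A : Set ((Fin n → ℂ) × ℂ) := ⋃ z ∈ {z ∈ V | JoinedIn V z₀ z}, U z
  let B : Set ((Fin n → ℂ) × ℂ) := ⋃ z ∈ {z ∈ V | ¬ JoinedIn V z₀ z}, U z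
  have hA : IsOpen A := isOpen_biUnion (fun z hz => hUo z hz.1)
  have hB : IsOpen B := isOpen_biUnion (fun z hz => hUo z hz.1)
  obtain ⟨w, hwV, hwA, hwB⟩ := hpre A B hA hB (fun z hz => by
      by_cases h : JoinedIn V z₀ z
      · exact Or.inl (mem_biUnion (show z ∈ {z ∈ V | JoinedIn V z₀ z} from ⟨hz, h⟩) (hzU z hz))
      · exact Or.inr (mem_biUnion (show z ∈ {z ∈ V | ¬ JoinedIn V z₀ z} from ⟨hz, h⟩) (hzU z hz)))
    ⟨z₀, hz₀, mem_biUnion (show z₀ ∈ {z ∈ V | JoinedIn V z₀ z} from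
      ⟨hz₀, JoinedIn.refl hz₀⟩) (hzU _ hz₀)⟩
    ⟨z, hz, mem_biUnion (show z ∈ {z ∈ V | ¬ JoinedIn V z₀ z} from ⟨hz, hcon⟩) (hzU _ hz)⟩
  obtain ⟨a, ha, hwa⟩ := mem_iUnion₂.mp hwA
  obtain ⟨b, hb, hwb⟩ := mem_iUnion₂.mp hwB
  exact hb.2 ((ha.2.trans (hU a ha.1 w hwa hwV)).trans (hU b hb.1 w hwb hwV).symm)

end Pool.Agent.X316.ET
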