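import Mathlib

/-! A primitive element. -/

set_option autoImplicit false

open Polynomial

namespace Pool.Agent.X316.ET

theorem key_field {L : Type} [Field L] (u v t : L) (ht : t ≠ 0) : u * v = t * v * (u / t) := by
  field_simp

theorem prim {A R : Type} [CommRing A] [IsDomain A] [CharZero A] [CommRing R] [IsDomain R]
    [Algebra A R] [FaithfulSMul A R] [Module.Finite A R] {a : ℕ} (w : Fin a → R) :
    ∃ (θ : R) (δ : A) (q : Fin a → Polynomial A), δ ≠ 0 ∧ ∀ j, aeval θ (q j) = δ • w j := by
  classical
  let K := FractionRing A
  let L := FractionRing R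
  have : Module.IsTorsionFree A R := inferInstance
  let _ : Algebra K L := FractionRing.liftAlgebra A L
  have : IsScalarTower A K L := inferInstance
  have : CharZero K := charZero_of_injective_algebraMap (IsFractionRing.injective A K)
  have hRL : Function.Injective (algebraMap R L) := IsFractionRing.injective R L
  have hint : ∀ r : R, IsIntegral K (algebraMap R L r) := fun r =>
    ((Algebra.IsIntegral.isIntegral (R := A) r).algebraMap (B := L)).tower_top
  let S : Set L := Set.range (fun j => algebraMap R L (w j))
  have : Finite S := Set.finite_range _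
  let F := IntermediateField.adjoin K S
  have : FiniteDimensional K F := IntermediateField.finiteDimensional_adjoin (by
    rintro _ ⟨j, rfl⟩
    exact hint _)
  obtain ⟨α, hα⟩ := Field.exists_primitive_element K F
  obtain ⟨r, s, hs, hrs⟩ := IsFractionRing.div_surjective (A := R) (α : L)
  have hsalg : IsAlgebraic A s := (Algebra.IsIntegral.isIntegral (R := A) s).isAlgebraic
  obtain ⟨b, hb, s', hs'⟩ := hsalg.exists_nonzero_dvd hs
  have hbK : algebraMap A K b ≠ 0 := fun h => hb ((IsFractionRing.injective A K) (by rw [h, map_zero]))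
  have hsL : algebraMap R L s ≠ 0 := fun h =>
    (nonZeroDivisors.ne_zero hs) (hRL (by rw [h, map_zero]))
  let θ : R := r * s'
  have hθ : algebraMap R L θ = algebraMap K L (algebraMap A K b) * (α : L) := by
    rw [← IsScalarTower.algebraMap_apply, IsScalarTower.algebraMap_apply A R L, hs', ← hrs, map_mul,
      map_mul]
    exact key_field _ _ _ hsL
  have hP : ∀ j, ∃ P : K[X], aeval (algebraMap R L θ) P = algebraMap R L (w j) := by
    intro j
    let y : F := ⟨algebraMap R L (w j), IntermediateField.subset_adjoin K S ⟨j, rfl⟩⟩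
    have hy : y ∈ (IntermediateField.adjoin K {α}) := by rw [hα]; trivial
    have hαi : IsIntegral K α := Algebra.IsIntegral.isIntegral α
    have h1 : y ∈ (IntermediateField.adjoin K {α}).toSubalgebra := hy
    rw [IntermediateField.adjoin_simple_toSubalgebra_of_isAlgebraic hαi.isAlgebraic,
      Algebra.adjoin_singleton_eq_range_aeval] at h1
    obtain ⟨P, hP⟩ := h1
    refine ⟨P.comp (C (algebraMap A K b)⁻¹ * X), ?_⟩
    rw [aeval_comp]
    have h2 : aeval (algebraMap R L θ) (C (algebraMap A K b)⁻¹ * X : K[X]) = (α : L) := by
      rw [map_mul, aeval_C, aeval_X, hθ, ← mul_assoc, ← map_mul, inv_mul_cancel₀ hbK, map_one,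
        one_mul]
    rw [h2]
    have h3 : ((aeval α P : F) : L) = (y : L) := congrArg Subtype.val hP
    exact (aeval_algebraMap_apply L α P).trans h3
  have hQ : ∀ j, ∃ (c : A) (P : A[X]), c ≠ 0 ∧ aeval θ P = c • w j := by
    intro j
    obtain ⟨P, hP⟩ := hP j
    obtain ⟨c, hc⟩ := IsLocalization.integerNormalization_map_to_map (nonZeroDivisors A) P
    refine ⟨c, IsLocalization.integerNormalization (nonZeroDivisors A) P,
      nonZeroDivisors.ne_zero c.2, hRL ?_⟩
    have h4 : algebraMap R L (aeval θ (IsLocalization.integerNormalization (nonZeroDivisors A) P)) =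
        aeval (algebraMap R L θ) (IsLocalization.integerNormalization (nonZeroDivisors A) P) :=
      (aeval_algebraMap_apply L θ _).symm
    rw [h4]
    have h5 : aeval (algebraMap R L θ) (IsLocalization.integerNormalization (nonZeroDivisors A) P) =
        aeval (algebraMap R L θ)
          ((IsLocalization.integerNormalization (nonZeroDivisors A) P).map (algebraMap A K)) :=
      (aeval_map_algebraMap K (algebraMap R L θ) _).symm
    rw [h5, hc, ← algebraMap_smul K (c : A) P, map_smul, hP, Algebra.smul_def, Algebra.smul_def,
      map_mul, ← IsScalarTower.algebraMap_apply A K L, ← IsScalarTower.algebraMap_apply A R L]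
  choose c P hc hcP using hQ
  refine ⟨θ, ∏ j, c j, fun j => C (∏ i ∈ Finset.univ.erase j, c i) * P j,
    Finset.prod_ne_zero_iff.mpr (fun j _ => hc j), fun j => ?_⟩
  rw [map_mul, aeval_C, hcP, ← Algebra.smul_def, smul_smul,
    Finset.prod_erase_mul _ _ (Finset.mem_univ j)]

end Pool.Agent.X316.ET
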