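import Mathlib
import Pool.Agent.X316.ET.Prim
import Pool.Agent.X316.ET.Loc

/-! The generic part of an irreducible algebraic set. -/

set_option autoImplicit false

open Polynomial

namespace Pool.Agent.X316.ET

open Pool.Agent.W327.F4

theorem homog {n a : ℕ} (δ : MvPolynomial (Fin n) ℂ) (q : Fin a → Polynomial (MvPolynomial (Fin n) ℂ))
    (g : MvPolynomial (Fin a) ℂ) : ∃ (N : ℕ) (G : Polynomial (MvPolynomial (Fin n) ℂ)),
      ∀ (S : Type) [Field S] (φ : Polynomial (MvPolynomial (Fin n) ℂ) →+* S),
        φ (C δ) ≠ 0 → φ G = φ (C δ) ^ N *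
          MvPolynomial.eval₂ (φ.comp (C.comp MvPolynomial.C)) (fun j => φ (q j) / φ (C δ)) g := by
  induction g using MvPolynomial.induction_on with
  | C z =>
    refine ⟨0, C (MvPolynomial.C z), fun S _ φ _ => ?_⟩
    rw [MvPolynomial.eval₂_C, pow_zero, one_mul]
    rfl
  | add g h hg hh =>
    obtain ⟨N, G, hG⟩ := hg
    obtain ⟨M, H, hH⟩ := hh
    refine ⟨N + M, C δ ^ M * G + C δ ^ N * H, fun S _ φ h0 => ?_⟩
    rw [map_add, map_mul, map_mul, hG S φ h0, hH S φ h0, MvPolynomial.eval₂_add, map_pow, map_pow]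
    ring
  | mul_X g j hg =>
    obtain ⟨N, G, hG⟩ := hg
    refine ⟨N + 1, G * q j, fun S _ φ h0 => ?_⟩
    rw [map_mul, hG S φ h0, MvPolynomial.eval₂_mul, MvPolynomial.eval₂_X, pow_succ]
    field_simp

theorem eval_bind {m a : ℕ} (w : Fin a → ℂ) (xt : Fin m → MvPolynomial (Fin a) ℂ)
    (z : MvPolynomial (Fin m) ℂ) : MvPolynomial.eval w (MvPolynomial.bind₁ xt z) =
      MvPolynomial.eval (fun i => MvPolynomial.eval w (xt i)) z := by
  induction z using MvPolynomial.induction_on with
  | C z => simp
  | add p q hp hq => rw [map_add, map_add, hp, hq, map_add]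
  | mul_X p j hp => rw [map_mul, map_mul, hp, map_mul, MvPolynomial.bind₁_X_right,
      MvPolynomial.eval_X]

theorem prime_step_gen {a : ℕ} {R : Type} [CommRing R] [IsDomain R] [Algebra ℂ R]
    (mk : MvPolynomial (Fin a) ℂ →ₐ[ℂ] R) (hsurj : Function.Surjective mk) :
    ∃ (n : ℕ) (f : Polynomial (MvPolynomial (Fin n) ℂ)) (δ D : MvPolynomial (Fin n) ℂ)
      (q : Fin a → Polynomial (MvPolynomial (Fin n) ℂ)) (xt : Fin n → MvPolynomial (Fin a) ℂ)
      (θt : MvPolynomial (Fin a) ℂ),
      f.Monic ∧ Irreducible f ∧ D ≠ 0 ∧ δ ∣ D ∧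
      (∀ x τ, ev x τ f = 0 → MvPolynomial.eval x D ≠ 0 → ev x τ (derivative f) ≠ 0) ∧
      (∀ x τ, ev x τ f = 0 → MvPolynomial.eval x D ≠ 0 → ∀ g, mk g = 0 →
        MvPolynomial.eval (fun j => ev x τ (q j) / MvPolynomial.eval x δ) g = 0) ∧
      mk (MvPolynomial.bind₁ xt D) ≠ 0 ∧
      (∀ w : Fin a → ℂ, (∀ g, mk g = 0 → MvPolynomial.eval w g = 0) →
        ev (fun i => MvPolynomial.eval w (xt i)) (MvPolynomial.eval w θt) f = 0 ∧
        ∀ j, MvPolynomial.eval (fun i => MvPolynomial.eval w (xt i)) δ * w j =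
          ev (fun i => MvPolynomial.eval w (xt i)) (MvPolynomial.eval w θt) (q j)) := by
  classical
  have : Algebra.FiniteType ℂ R := Algebra.FiniteType.of_surjective mk hsurj
  obtain ⟨n, g, hinj, hfin⟩ := exists_finite_inj_algHom_of_fg ℂ R
  let A := MvPolynomial (Fin n) ℂ
  let _ : Algebra A R := g.toRingHom.toAlgebra
  have : Module.Finite A R := hfin
  have hmap : ∀ z : A, algebraMap A R z = g z := fun z => rfl
  have hfs : FaithfulSMul A R := (faithfulSMul_iff_algebraMap_injective A R).mpr hinj
  obtain ⟨θ, δ, q, hδ, hq⟩ := prim (A := A) (R := R) (fun j => mk (MvPolynomial.X j))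
  have hθi : IsIntegral A θ := Algebra.IsIntegral.isIntegral θ
  let f := minpoly A θ
  have hf : f.Monic := minpoly.monic hθi
  have hfi : Irreducible f := minpoly.irreducible hθi
  have hdeg : 0 < f.natDegree := minpoly.natDegree_pos hθi
  have hder : ¬ f ∣ derivative f := by
    refine hf.not_dvd_of_natDegree_lt ?_ (natDegree_derivative_lt hdeg.ne')
    intro h
    have := natDegree_eq_zero_of_derivative_eq_zero h
    omega
  obtain ⟨u, v, Δ, hΔ, huv⟩ := bezout f (derivative f) hf hfi hder
  -- lifts
  choose xt hxt using fun i => hsurj (g (MvPolynomial.X i))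
  obtain ⟨θt, hθt⟩ := hsurj θ
  let ψ : Polynomial A →+* MvPolynomial (Fin a) ℂ :=
    Polynomial.eval₂RingHom (MvPolynomial.bind₁ xt).toRingHom θt
  have hψC : ∀ z : A, ψ (C z) = MvPolynomial.bind₁ xt z := fun z => eval₂_C _ _
  have hψX : ψ X = θt := eval₂_X _ _
  have hbind : ∀ z : A, mk (MvPolynomial.bind₁ xt z) = g z := by
    intro z
    have : (mk.comp (MvPolynomial.bind₁ xt)) = g := by
      apply MvPolynomial.algHom_ext
      intro i
      simp only [AlgHom.comp_apply, MvPolynomial.bind₁_X_right]
      exact hxt i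
    exact congrArg (fun h : A →ₐ[ℂ] R => h z) this
  have hψ : ∀ P : Polynomial A, mk (ψ P) = aeval θ P := by
    intro P
    have : (mk.toRingHom.comp ψ) = (aeval θ : Polynomial A →ₐ[A] R).toRingHom := by
      apply Polynomial.ringHom_ext
      · intro z
        show mk (ψ (C z)) = aeval θ (C z)
        rw [hψC, hbind, aeval_C]
        rfl
      · show mk (ψ X) = aeval θ X
        rw [hψX, hθt, aeval_X]
    exact congrArg (fun h : Polynomial A →+* R => h P) this
  have hev : ∀ (w : Fin a → ℂ) (P : Polynomial A), MvPolynomial.eval w (ψ P) =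
      ev (fun i => MvPolynomial.eval w (xt i)) (MvPolynomial.eval w θt) P := by
    intro w P
    have : ((MvPolynomial.eval w).comp ψ) = (evalRingHom (MvPolynomial.eval w θt)).comp
        (mapRingHom (MvPolynomial.eval (fun i => MvPolynomial.eval w (xt i)))) := by
      apply Polynomial.ringHom_ext
      · intro z
        show MvPolynomial.eval w (ψ (C z)) = _
        rw [hψC]
        simp only [RingHom.comp_apply, coe_mapRingHom, map_C, coe_evalRingHom, eval_C]
        exact eval_bind _ _ _
      · show MvPolynomial.eval w (ψ X) = _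
        rw [hψX]
        simp
    exact congrArg (fun h : Polynomial A →+* ℂ => h P) this
  refine ⟨n, f, δ, δ * Δ, q, xt, θt, hf, hfi, mul_ne_zero hδ hΔ, dvd_mul_right _ _, ?_, ?_, ?_, ?_⟩
  · intro x τ h0 h1 h2
    have h3 := congrArg (ev x τ) huv
    rw [ev_add, ev_mul, ev_mul, ev_C, h0, h2, mul_zero, mul_zero, add_zero] at h3
    rw [map_mul, ← h3, mul_zero] at h1
    exact h1 rfl
  · intro x τ h0 h1 g' hg'
    have hδx : MvPolynomial.eval x δ ≠ 0 := by
      intro h
      rw [map_mul, h, zero_mul] at h1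
      exact h1 rfl
    obtain ⟨N, G, hG⟩ := homog δ q g'
    -- G vanishes at θ
    have hGθ : aeval θ G = 0 := by
      let L := FractionRing R
      have hRL : Function.Injective (algebraMap R L) := IsFractionRing.injective R L
      apply hRL
      rw [map_zero]
      have h5 := hG L ((algebraMap R L).comp (aeval θ : Polynomial A →ₐ[A] R).toRingHom) (by
        show algebraMap R L (aeval θ (C δ)) ≠ 0
        rw [aeval_C]
        intro h
        exact hδ (hinj (by rw [map_zero]; exact hRL (by rw [map_zero]; exact h))))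
      have h6 : ∀ g', MvPolynomial.eval₂ (((algebraMap R L).comp
          (aeval θ : Polynomial A →ₐ[A] R).toRingHom).comp (C.comp MvPolynomial.C))
          (fun j => ((algebraMap R L).comp (aeval θ : Polynomial A →ₐ[A] R).toRingHom) (q j) /
            ((algebraMap R L).comp (aeval θ : Polynomial A →ₐ[A] R).toRingHom) (C δ)) g' =
          algebraMap R L (mk g') := by
        intro g'
        induction g' using MvPolynomial.induction_on with
        | C z =>
          rw [MvPolynomial.eval₂_C]
          show algebraMap R L (aeval θ (C (MvPolynomial.C z))) = _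
          rw [aeval_C]
          congr 1
          show g (MvPolynomial.C z) = _
          rw [← MvPolynomial.algebraMap_eq, g.commutes, ← MvPolynomial.algebraMap_eq, mk.commutes]
        | add p q hp hq => rw [MvPolynomial.eval₂_add, hp, hq, map_add, map_add]
        | mul_X p j hp =>
          rw [MvPolynomial.eval₂_mul, hp, MvPolynomial.eval₂_X, map_mul, map_mul]
          congr 1
          show algebraMap R L (aeval θ (q j)) / algebraMap R L (aeval θ (C δ)) = _
          rw [aeval_C, hq, Algebra.smul_def, map_mul]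
          refine mul_div_cancel_left₀ _ (fun h => hδ (hinj ?_))
          rw [map_zero]
          exact hRL (by rw [map_zero]; exact h)
      rw [h6, hg', map_zero, mul_zero] at h5
      exact h5
    obtain ⟨c, hc⟩ := minpoly.isIntegrallyClosed_dvd hθi hGθ
    have h7 := hG ℂ ((evalRingHom τ).comp (mapRingHom (MvPolynomial.eval x))) (by
      show ev x τ (C δ) ≠ 0
      rwa [ev_C])
    have h8 : ((evalRingHom τ).comp (mapRingHom (MvPolynomial.eval x))) G = 0 := by
      show ev x τ G = 0
      rw [hc, ev_mul]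
      show ev x τ f * _ = 0
      rw [h0, zero_mul]
    rw [h8] at h7
    have h9 : ((evalRingHom τ).comp (mapRingHom (MvPolynomial.eval x))) (C δ) ≠ 0 := by
      show ev x τ (C δ) ≠ 0
      rwa [ev_C]
    have h10 := (mul_eq_zero.mp h7.symm).resolve_left (pow_ne_zero _ h9)
    rw [← h10, ← MvPolynomial.eval₂_id]
    congr 1
    · refine RingHom.ext (fun z => ?_)
      show _ = ev x τ (C (MvPolynomial.C z))
      rw [ev_C, MvPolynomial.eval_C]
      rfl
    · funext j
      show _ = ev x τ (q j) / ev x τ (C δ)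
      rw [ev_C]
  · intro h
    rw [hbind] at h
    exact mul_ne_zero hδ hΔ (hinj (by rw [h, map_zero]))
  · intro w hw
    refine ⟨?_, fun j => ?_⟩
    · rw [← hev]
      refine hw _ ?_
      rw [hψ]
      exact minpoly.aeval A θ
    · have h1 : mk (ψ (C δ) * MvPolynomial.X j - ψ (q j)) = 0 := by
        rw [map_sub, map_mul, hψ, hψ, hq, aeval_C, Algebra.smul_def, sub_self]
      have h2 := hw _ h1
      rw [map_sub, map_mul, hev, hev, ev_C, MvPolynomial.eval_X, sub_eq_zero] at h2
      exact h2

end Pool.Agent.X316.ET
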