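import Mathlib
import Pool.Agent.X316.ET.Prime
import Pool.Agent.Y193.FG.Alg

/-! Every algebraic set is a finite union of polynomial images of path connected algebraic sets. -/

set_option autoImplicit false

open Polynomial Topology Set

namespace Pool.Agent.X316.ET

open Pool.Agent.W327.F4 Pool.Agent.Y193.FG

/-- the set is covered by countably many polynomial images of path connected algebraic sets -/
def Cov {a : ℕ} (W : Set (Fin a → ℂ)) : Prop :=
  ∃ (J : Type) (_ : Finite J) (r : J → ℕ) (U : ∀ j, Set (Fin (r j) → ℂ))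
    (F : ∀ j, Fin a → MvPolynomial (Fin (r j)) ℂ), (∀ j, AlgSet (U j)) ∧
    (∀ j, IsPathConnected (U j)) ∧ (∀ j u, u ∈ U j → (fun i => MvPolynomial.eval u (F j i)) ∈ W) ∧
    ∀ w ∈ W, ∃ (j : J) (u : Fin (r j) → ℂ), u ∈ U j ∧ (fun i => MvPolynomial.eval u (F j i)) = w

variable {a : ℕ}

theorem Cov.empty : Cov (∅ : Set (Fin a → ℂ)) :=
  ⟨Empty, inferInstance, fun j => j.elim, fun j => j.elim, fun j => j.elim, fun j => j.elim,
    fun j => j.elim, fun j => j.elim, fun _ h => h.elim⟩

theorem Cov.union {W W' : Set (Fin a → ℂ)} (h : Cov W) (h' : Cov W') : Cov (W ∪ W') := by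
  obtain ⟨J, _, r, U, F, h1, h2, h3, h4⟩ := h
  obtain ⟨J', _, r', U', F', h1', h2', h3', h4'⟩ := h'
  refine ⟨J ⊕ J', inferInstance, Sum.elim r r', fun j => match j with
    | Sum.inl j => U j
    | Sum.inr j => U' j, fun j => match j with
    | Sum.inl j => F j
    | Sum.inr j => F' j, ?_, ?_, ?_, ?_⟩
  · rintro (j | j)
    · exact h1 j
    · exact h1' j
  · rintro (j | j)
    · exact h2 j
    · exact h2' j
  · rintro (j | j) u hu
    · exact Or.inl (h3 j u hu)
    · exact Or.inr (h3' j u hu)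
  · rintro w (hw | hw)
    · obtain ⟨j, u, hu, hw⟩ := h4 w hw
      exact ⟨Sum.inl j, u, hu, hw⟩
    · obtain ⟨j, u, hu, hw⟩ := h4' w hw
      exact ⟨Sum.inr j, u, hu, hw⟩

theorem Cov.of_one {W : Set (Fin a → ℂ)} {r : ℕ} {U : Set (Fin r → ℂ)}
    {F : Fin a → MvPolynomial (Fin r) ℂ} (h1 : AlgSet U) (h2 : IsPathConnected U)
    (h3 : ∀ u ∈ U, (fun i => MvPolynomial.eval u (F i)) ∈ W)
    {W' : Set (Fin a → ℂ)} (hW' : Cov W') (hsub : W' ⊆ W)
    (hcov : ∀ w ∈ W, w ∈ W' ∨ ∃ u ∈ U, (fun i => MvPolynomial.eval u (F i)) = w) : Cov W := by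
  obtain ⟨J, _, r', U', F', h1', h2', h3', h4'⟩ := hW'
  refine ⟨Option J, inferInstance, fun j => match j with
    | none => r
    | some j => r' j, fun j => match j with
    | none => U
    | some j => U' j, fun j => match j with
    | none => F
    | some j => F' j, ?_, ?_, ?_, ?_⟩
  · rintro (_ | j)
    · exact h1
    · exact h1' j
  · rintro (_ | j)
    · exact h2
    · exact h2' j
  · rintro (_ | j) u hu
    · exact h3 u hu
    · exact hsub (h3' j u hu)
  · intro w hw
    rcases hcov w hw with h | ⟨u, hu, h⟩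
    · obtain ⟨j, u, hu, h⟩ := h4' w h
      exact ⟨some j, u, hu, h⟩
    · exact ⟨none, u, hu, h⟩

/-- the polynomial `f(x, s)` in the coordinates of `ℂ^(n+2)` -/
noncomputable def tm {n : ℕ} (f : Polynomial (MvPolynomial (Fin n) ℂ)) :
    MvPolynomial (Fin (n + 2)) ℂ :=
  Polynomial.eval₂ (MvPolynomial.rename (Fin.castAdd 2)).toRingHom
    (MvPolynomial.X (Fin.natAdd n 0)) f

theorem eval_tm {n : ℕ} (f : Polynomial (MvPolynomial (Fin n) ℂ)) (y : Fin (n + 2) → ℂ) :
    MvPolynomial.eval y (tm f) = ev (fun i => y (Fin.castAdd 2 i)) (y (Fin.natAdd n 0)) f := by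
  have : ((MvPolynomial.eval y).comp (Polynomial.eval₂RingHom
      (MvPolynomial.rename (Fin.castAdd 2)).toRingHom (MvPolynomial.X (Fin.natAdd n 0)))) =
      (evalRingHom (y (Fin.natAdd n 0))).comp
        (mapRingHom (MvPolynomial.eval (fun i => y (Fin.castAdd 2 i)))) := by
    apply Polynomial.ringHom_ext
    · intro z
      simp only [RingHom.comp_apply, coe_eval₂RingHom, eval₂_C, coe_mapRingHom, map_C,
        coe_evalRingHom, eval_C]
      exact MvPolynomial.eval_rename _ _ _
    · simp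
  exact congrArg (fun h : Polynomial (MvPolynomial (Fin n) ℂ) →+* ℂ => h f) this

/-- the zero set of an ideal -/
def ZI (I : Ideal (MvPolynomial (Fin a) ℂ)) : Set (Fin a → ℂ) :=
  {w | ∀ g ∈ I, MvPolynomial.eval w g = 0}

theorem cov_prime (I : Ideal (MvPolynomial (Fin a) ℂ)) (hI : I.IsPrime)
    (ih : ∀ J, I < J → Cov (ZI J)) : Cov (ZI I) := by
  obtain ⟨n, f, δ, D, q, xt, θt, hf, hfi, hD, ⟨D', hD'⟩, hs, h1, h2, h3⟩ :=
    prime_step_gen (Ideal.Quotient.mkₐ ℂ I) (Ideal.Quotient.mkₐ_surjective ℂ I)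
  have hmk : ∀ g, Ideal.Quotient.mkₐ ℂ I g = 0 ↔ g ∈ I := fun g => Ideal.Quotient.eq_zero_iff_mem
  simp only [hmk] at h1 h2 h3
  let cx : (Fin (n + 2) → ℂ) → Fin n → ℂ := fun y i => y (Fin.castAdd 2 i)
  let U : Set (Fin (n + 2) → ℂ) := {y | ev (cx y) (y (Fin.natAdd n 0)) f = 0 ∧
    y (Fin.natAdd n 1) * MvPolynomial.eval (cx y) D = 1}
  have hUa : AlgSet U := by
    refine ⟨{tm f, MvPolynomial.X (Fin.natAdd n 1) *
      MvPolynomial.rename (Fin.castAdd 2) D - 1}, ?_⟩
    ext y
    simp only [mem_insert_iff, mem_singleton_iff, forall_eq_or_imp, forall_eq, mem_setOf_eq,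
      eval_tm, map_sub, map_mul, MvPolynomial.eval_X, MvPolynomial.eval_rename, map_one,
      sub_eq_zero, U, cx]
    rfl
  have hV := pathConn f D hf hfi hD hs
  let emb : (Fin n → ℂ) × ℂ → Fin (n + 2) → ℂ := fun z => Fin.append z.1
    ![z.2, (MvPolynomial.eval z.1 D)⁻¹]
  have hUc : IsPathConnected U := by
    have himg : emb '' {z | ev z.1 z.2 f = 0 ∧ MvPolynomial.eval z.1 D ≠ 0} = U := by
      ext y
      constructor
      · rintro ⟨⟨x, τ⟩, ⟨h4, h5⟩, rfl⟩
        have e1 : cx (emb (x, τ)) = x := funext (fun i => Fin.append_left _ _ _)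
        have e2 : emb (x, τ) (Fin.natAdd n 0) = τ := Fin.append_right _ _ _
        have e3 : emb (x, τ) (Fin.natAdd n 1) = (MvPolynomial.eval x D)⁻¹ :=
          Fin.append_right _ _ _
        refine ⟨?_, ?_⟩
        · rw [e1, e2]
          exact h4
        · rw [e1, e3]
          exact inv_mul_cancel₀ h5
      · rintro ⟨h4, h5⟩
        have h6 : MvPolynomial.eval (cx y) D ≠ 0 := right_ne_zero_of_mul_eq_one h5
        refine ⟨(cx y, y (Fin.natAdd n 0)), ⟨h4, h6⟩, ?_⟩
        funext k
        refine Fin.addCases (fun i => ?_) (fun i => ?_) k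
        · exact Fin.append_left _ _ _
        · refine (Fin.append_right _ _ _).trans ?_
          fin_cases i
          · rfl
          · show (MvPolynomial.eval (cx y) D)⁻¹ = y (Fin.natAdd n 1)
            exact (eq_inv_of_mul_eq_one_left h5).symm
    rw [← himg]
    refine hV.image' ?_
    refine continuousOn_pi.mpr (fun k => ?_)
    refine Fin.addCases (fun i => ?_) (fun i => ?_) k
    · have : (fun z : (Fin n → ℂ) × ℂ => emb z (Fin.castAdd 2 i)) = fun z => z.1 i :=
        funext (fun z => Fin.append_left _ _ _)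
      rw [this]
      exact ((continuous_apply i).comp continuous_fst).continuousOn
    · fin_cases i
      · have : (fun z : (Fin n → ℂ) × ℂ => emb z (Fin.natAdd n 0)) = fun z => z.2 :=
          funext (fun z => Fin.append_right _ _ _)
        show ContinuousOn (fun z : (Fin n → ℂ) × ℂ => emb z (Fin.natAdd n 0)) _
        rw [this]
        exact continuous_snd.continuousOn
      · have : (fun z : (Fin n → ℂ) × ℂ => emb z (Fin.natAdd n 1)) =
            fun z => (MvPolynomial.eval z.1 D)⁻¹ := funext (fun z => Fin.append_right _ _ _)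
        show ContinuousOn (fun z : (Fin n → ℂ) × ℂ => emb z (Fin.natAdd n 1)) _
        rw [this]
        refine ContinuousOn.inv₀ ?_ (fun z hz => hz.2)
        exact ((MvPolynomial.continuous_eval D).comp continuous_fst).continuousOn
  let F : Fin a → MvPolynomial (Fin (n + 2)) ℂ := fun j =>
    MvPolynomial.X (Fin.natAdd n 1) * MvPolynomial.rename (Fin.castAdd 2) D' * tm (q j)
  have hF : ∀ y, (MvPolynomial.eval (cx y) D ≠ 0) →
      y (Fin.natAdd n 1) * MvPolynomial.eval (cx y) D = 1 → ∀ j, MvPolynomial.eval y (F j) =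
      ev (cx y) (y (Fin.natAdd n 0)) (q j) / MvPolynomial.eval (cx y) δ := by
    intro y h4 h5 j
    have h6 : MvPolynomial.eval y (F j) = y (Fin.natAdd n 1) * MvPolynomial.eval (cx y) D' *
        ev (cx y) (y (Fin.natAdd n 0)) (q j) := by
      simp only [F, map_mul, MvPolynomial.eval_X, MvPolynomial.eval_rename, eval_tm]
      rfl
    rw [hD', map_mul] at h4 h5
    have h7 : MvPolynomial.eval (cx y) δ ≠ 0 := left_ne_zero_of_mul h4
    rw [h6, eq_div_iff h7]
    linear_combination ev (cx y) (y (Fin.natAdd n 0)) (q j) * h5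
  refine Cov.of_one (U := U) (F := F) hUa hUc ?_ (ih (I ⊔ Ideal.span {MvPolynomial.bind₁ xt D}) ?_)
    ?_ ?_
  · rintro y ⟨h4, h5⟩ g hg
    have h6 : MvPolynomial.eval (cx y) D ≠ 0 := right_ne_zero_of_mul_eq_one h5
    have h7 := h1 (cx y) (y (Fin.natAdd n 0)) h4 h6 g hg
    rw [← h7]
    congr 2
    funext j
    exact hF y h6 h5 j
  · refine lt_of_le_of_ne le_sup_left (fun h => h2 ((hmk _).mpr ?_))
    have h' : MvPolynomial.bind₁ xt D ∈ I ⊔ Ideal.span {MvPolynomial.bind₁ xt D} :=
      (le_sup_right : _ ≤ I ⊔ Ideal.span {MvPolynomial.bind₁ xt D}) (Ideal.subset_span rfl)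
    rwa [← h] at h'
  · intro w hw g hg
    exact hw g ((le_sup_left : I ≤ _) hg)
  · intro w hw
    by_cases h4 : MvPolynomial.eval w (MvPolynomial.bind₁ xt D) = 0
    · left
      intro g hg
      obtain ⟨g₁, hg₁, g₂, hg₂, rfl⟩ := Submodule.mem_sup.mp hg
      obtain ⟨c, rfl⟩ := Ideal.mem_span_singleton'.mp hg₂
      rw [map_add, map_mul, h4, mul_zero, add_zero]
      exact hw _ hg₁
    · right
      rw [eval_bind] at h4
      obtain ⟨h5, h6⟩ := h3 w hw
      let y : Fin (n + 2) → ℂ := emb (fun i => MvPolynomial.eval w (xt i),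
        MvPolynomial.eval w θt)
      have e1 : cx y = fun i => MvPolynomial.eval w (xt i) :=
        funext (fun i => Fin.append_left _ _ _)
      have e2 : y (Fin.natAdd n 0) = MvPolynomial.eval w θt := Fin.append_right _ _ _
      have e3 : y (Fin.natAdd n 1) =
          (MvPolynomial.eval (fun i => MvPolynomial.eval w (xt i)) D)⁻¹ :=
        Fin.append_right _ _ _
      have h7 : y (Fin.natAdd n 1) * MvPolynomial.eval (cx y) D = 1 := by
        rw [e1, e3]
        exact inv_mul_cancel₀ h4
      refine ⟨y, ⟨by rw [e1, e2]; exact h5, h7⟩, funext (fun j => ?_)⟩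
      rw [hF y (by rw [e1]; exact h4) h7 j, e1, e2, ← h6 j]
      refine mul_div_cancel_left₀ _ ?_
      intro h
      rw [hD', map_mul, h, zero_mul] at h4
      exact h4 rfl

theorem cov_step (I : Ideal (MvPolynomial (Fin a) ℂ)) (ih : ∀ J, I < J → Cov (ZI J)) :
    Cov (ZI I) := by
  by_cases hI : I.IsPrime
  · exact cov_prime I hI ih
  · by_cases hT : I = ⊤
    · have : ZI I = ∅ := by
        ext w
        simp only [mem_empty_iff_false, iff_false]
        intro h
        have := h 1 (by rw [hT]; trivial)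
        simp at this
      rw [this]
      exact Cov.empty
    · rw [Ideal.isPrime_iff] at hI
      push Not at hI
      obtain ⟨x, y, hxy, hx, hy⟩ := hI hT
      have h1 : ZI I = ZI (I ⊔ Ideal.span {x}) ∪ ZI (I ⊔ Ideal.span {y}) := by
        ext w
        constructor
        · intro hw
          have h2 := hw _ hxy
          rw [map_mul] at h2
          rcases mul_eq_zero.mp h2 with h3 | h3
          · left
            intro g hg
            obtain ⟨g₁, hg₁, g₂, hg₂, rfl⟩ := Submodule.mem_sup.mp hg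
            obtain ⟨c, rfl⟩ := Ideal.mem_span_singleton'.mp hg₂
            rw [map_add, map_mul, h3, mul_zero, add_zero]
            exact hw _ hg₁
          · right
            intro g hg
            obtain ⟨g₁, hg₁, g₂, hg₂, rfl⟩ := Submodule.mem_sup.mp hg
            obtain ⟨c, rfl⟩ := Ideal.mem_span_singleton'.mp hg₂
            rw [map_add, map_mul, h3, mul_zero, add_zero]
            exact hw _ hg₁
        · rintro (hw | hw) g hg
          · exact hw g ((le_sup_left : I ≤ _) hg)
          · exact hw g ((le_sup_left : I ≤ _) hg)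
      have hlt : ∀ z, z ∉ I → I < I ⊔ Ideal.span {z} := by
        intro z hz
        refine lt_of_le_of_ne le_sup_left (fun h => hz ?_)
        have h' : z ∈ I ⊔ Ideal.span {z} :=
          (le_sup_right : _ ≤ I ⊔ Ideal.span {z}) (Ideal.subset_span rfl)
        rwa [← h] at h'
      rw [h1]
      exact (ih _ (hlt x hx)).union (ih _ (hlt y hy))

theorem cov_ideal (I : Ideal (MvPolynomial (Fin a) ℂ)) : Cov (ZI I) :=
  IsNoetherian.induction (R := MvPolynomial (Fin a) ℂ) (M := MvPolynomial (Fin a) ℂ)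
    (P := fun I => Cov (ZI I)) (fun I ih => cov_step I ih) I

theorem cov_algSet {W : Set (Fin a → ℂ)} (h : AlgSet W) : Cov W := by
  obtain ⟨S, rfl⟩ := h
  have : {w | ∀ F ∈ S, MvPolynomial.eval w F = 0} = ZI (Ideal.span S) := by
    ext w
    constructor
    · intro hw g hg
      have h1 : Ideal.span S ≤ RingHom.ker (MvPolynomial.eval w) :=
        Ideal.span_le.mpr (fun F hF => hw F hF)
      exact h1 hg
    · intro hw F hF
      exact hw F (Ideal.subset_span hF)
  rw [this]
  exact cov_ideal _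

end Pool.Agent.X316.ET
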