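import Mathlib
import Pool.Agent.X316.ET.AS
import Pool.Agent.X316.ET.Dec
import Pool.Agent.X325.ET.Tr
import Pool.Agent.X325.HS.FinF

/-! The algebraic set of the regular maps of bounded degree of étale curves to a quasi-projective
variety. -/

set_option autoImplicit false

open Topology Set

namespace Pool.Agent.X316.ET

open Pool.Agent.Y193.FG Pool.Agent.X325.ET

abbrev TI (n : ℕ) : Type := Fin (n + 1) × Fin (n + 1)
abbrev E1 (D : ℕ) : Type := Fin 1 → Fin (D + 1)
abbrev E3 (D : ℕ) : Type := Fin 3 → Fin (D + 1)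

/-- the coordinates of the parameters -/
abbrev PK (n : ℕ) (κ : Type) (N m D : ℕ) : Type :=
  (Fin N × E1 D) ⊕ (Fin m ⊕ (Unit ⊕ (E3 D ⊕ ((TI n × E3 D) ⊕ ((κ × Fin (n + 1)) × E3 D)))))

section

variable {n : ℕ} {ι κ : Type} [Fintype κ] {N m D : ℕ}

/-- the enumeration of the coordinates -/
noncomputable def sk (n : ℕ) (κ : Type) [Fintype κ] (N m D : ℕ) :
    PK n κ N m D ≃ Fin (Fintype.card (PK n κ N m D)) := Fintype.equivFin _

/-- the number of the parameters -/
noncomputable abbrev nk (n : ℕ) (κ : Type) [Fintype κ] (N m D : ℕ) : ℕ :=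
  Fintype.card (PK n κ N m D)

/-- a polynomial with coefficients at the given places, as a polynomial in `(w, x, s, z)` -/
noncomputable def bS (τ : E3 D → Fin (nk n κ N m D)) : MvPolynomial (Fin (nk n κ N m D + 3)) ℂ :=
  ∑ α : E3 D, MvPolynomial.X (Fin.castAdd 3 (τ α)) *
    ∏ j, MvPolynomial.X (Fin.natAdd (nk n κ N m D) j) ^ (α j : ℕ)

theorem eval_bS (τ : E3 D → Fin (nk n κ N m D)) (w : Fin (nk n κ N m D) → ℂ) (x s z : ℂ) :
    MvPolynomial.eval (pt3 w x s z) (bS τ) = bev (fun α => w (τ α)) ![x, s, z] := by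
  unfold bS bev
  rw [map_sum]
  refine Finset.sum_congr rfl (fun α _ => ?_)
  rw [map_mul, map_prod, MvPolynomial.eval_X]
  have h1 : pt3 w x s z (Fin.castAdd 3 (τ α)) = w (τ α) := Fin.append_left _ _ _
  rw [h1]
  congr 1
  refine Finset.prod_congr rfl (fun j _ => ?_)
  rw [map_pow, MvPolynomial.eval_X]
  have h2 : pt3 w x s z (Fin.natAdd _ j) = (![x, s, z] : Fin 3 → ℂ) j := Fin.append_right _ _ _
  rw [h2]

/-- the places of the coefficients of `v`, `F b`, `g j` -/
noncomputable def τv : E3 D → Fin (nk n κ N m D) :=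
  fun α => sk n κ N m D (Sum.inr (Sum.inr (Sum.inr (Sum.inl α))))
noncomputable def τF (b : TI n) : E3 D → Fin (nk n κ N m D) :=
  fun α => sk n κ N m D (Sum.inr (Sum.inr (Sum.inr (Sum.inr (Sum.inl (b, α))))))
noncomputable def τg (b : κ × Fin (n + 1)) : E3 D → Fin (nk n κ N m D) :=
  fun α => sk n κ N m D (Sum.inr (Sum.inr (Sum.inr (Sum.inr (Sum.inr (b, α))))))
noncomputable def τc (j : Fin N) : E1 D → Fin (nk n κ N m D) :=
  fun α => sk n κ N m D (Sum.inl (j, α))
noncomputable def τe (i : Fin m) : Fin (nk n κ N m D) :=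
  sk n κ N m D (Sum.inr (Sum.inl i))
noncomputable def τu : Fin (nk n κ N m D) :=
  sk n κ N m D (Sum.inr (Sum.inr (Sum.inl ())))

/-- the coefficients of the equation -/
noncomputable def cK (n : ℕ) (κ : Type) [Fintype κ] (N m D : ℕ) (j : Fin N) :
    MvPolynomial (Fin (nk n κ N m D + 1)) ℂ :=
  ∑ α : E1 D, MvPolynomial.X (Fin.castSucc (τc j α)) *
    MvPolynomial.X (Fin.last (nk n κ N m D)) ^ (α 0 : ℕ)

theorem eval_cK (w : Fin (nk n κ N m D) → ℂ) (x : ℂ) (j : Fin N) :
    MvPolynomial.eval (Fin.snoc (α := fun _ => ℂ) w x) (cK n κ N m D j) =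
      bev (fun α => w (τc j α)) ![x] := by
  unfold cK bev
  rw [map_sum]
  refine Finset.sum_congr rfl (fun α _ => ?_)
  simp

/-- the branch points -/
noncomputable def eK (n : ℕ) (κ : Type) [Fintype κ] (N m D : ℕ) (i : Fin m) :
    MvPolynomial (Fin (nk n κ N m D)) ℂ := MvPolynomial.X (τe i)

/-- the derivative of `P` as a polynomial in `(w, x, s, z)` -/
noncomputable def dP {a N : ℕ} (c : Fin N → MvPolynomial (Fin (a + 1)) ℂ) :
    MvPolynomial (Fin (a + 3)) ℂ :=
  MvPolynomial.C (N : ℂ) * MvPolynomial.X (Fin.natAdd a 1) ^ (N - 1) +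
    ∑ j : Fin N, MvPolynomial.aeval (Fin.snoc (α := fun _ => MvPolynomial (Fin (a + 3)) ℂ)
      (fun i => MvPolynomial.X (Fin.castAdd 3 i)) (MvPolynomial.X (Fin.natAdd a 0))) (c j) *
      (MvPolynomial.C ((j : ℕ) : ℂ) * MvPolynomial.X (Fin.natAdd a 1) ^ ((j : ℕ) - 1))

theorem eval_snoc3 {a : ℕ} (w : Fin a → ℂ) (x s z : ℂ) (g : MvPolynomial (Fin (a + 1)) ℂ) :
    MvPolynomial.eval (pt3 w x s z)
      (MvPolynomial.aeval (Fin.snoc (α := fun _ => MvPolynomial (Fin (a + 3)) ℂ)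
      (fun i => MvPolynomial.X (Fin.castAdd 3 i)) (MvPolynomial.X (Fin.natAdd a 0))) g) =
      MvPolynomial.eval (Fin.snoc (α := fun _ => ℂ) w x) g := by
  induction g using MvPolynomial.induction_on with
  | C z => simp
  | add p q hp hq => rw [map_add, map_add, hp, hq, map_add]
  | mul_X p j hp =>
    rw [map_mul, map_mul, hp, map_mul, MvPolynomial.aeval_X, MvPolynomial.eval_X]
    congr 1
    refine Fin.lastCases ?_ (fun i => ?_) j
    · rw [Fin.snoc_last, Fin.snoc_last, MvPolynomial.eval_X]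
      exact Fin.append_right _ _ _
    · rw [Fin.snoc_castSucc, Fin.snoc_castSucc, MvPolynomial.eval_X]
      exact Fin.append_left _ _ _

theorem eval_dP {a N : ℕ} (c : Fin N → MvPolynomial (Fin (a + 1)) ℂ) (w : Fin a → ℂ) (x s z : ℂ) :
    MvPolynomial.eval (pt3 w x s z) (dP c) = (etP N c w x).derivative.eval s := by
  have h1 : pt3 w x s z (Fin.natAdd a 1) = s := Fin.append_right _ _ _
  unfold dP etP
  rw [map_add, map_sum, Polynomial.derivative_add, Polynomial.derivative_sum, Polynomial.eval_add,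
    Polynomial.eval_finsetSum]
  congr 1
  · rw [Polynomial.derivative_X_pow]
    simp [h1]
  · refine Finset.sum_congr rfl (fun j _ => ?_)
    rw [map_mul, eval_snoc3, Polynomial.derivative_C_mul, Polynomial.derivative_X_pow]
    simp [h1]

variable (p : ι → MvPolynomial (Fin (n + 1)) ℂ) (q : κ → MvPolynomial (Fin (n + 1)) ℂ)

/-- the conditions on the parameters -/
structure OKK (w : Fin (nk n κ N m D) → ℂ) : Prop where
  dist : w τu * ∏ i : Fin m, ∏ j ∈ Finset.univ.erase i, (w (τe i) - w (τe j)) = 1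
  curve : ∀ x s z : ℂ, z * ∏ i, (x - MvPolynomial.eval w (eK n κ N m D i)) = 1 →
    (etP N (cK n κ N m D) w x).eval s = 0 →
      bev (fun α => w (τv α)) ![x, s, z] * (etP N (cK n κ N m D) w x).derivative.eval s = 1 ∧
      (∀ i, MvPolynomial.eval (fun b => bev (fun α => w (τF b α)) ![x, s, z]) (PT p i) = 0) ∧
      ∑ j, bev (fun α => w (τg j α)) ![x, s, z] *
        MvPolynomial.eval (fun b => bev (fun α => w (τF b α)) ![x, s, z]) (QT q j) = 1

/-- the set of the parameters -/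
def WK (N m D : ℕ) : Set (Fin (nk n κ N m D) → ℂ) := {w | OKK p q w}

variable {p q}

theorem ne_of_dist {w : Fin (nk n κ N m D) → ℂ}
    (h : w τu * ∏ i : Fin m, ∏ j ∈ Finset.univ.erase i, (w (τe i) - w (τe j)) = 1) (i j : Fin m)
    (hij : i ≠ j) : MvPolynomial.eval w (eK n κ N m D i) ≠ MvPolynomial.eval w (eK n κ N m D j) := by
  unfold eK
  rw [MvPolynomial.eval_X, MvPolynomial.eval_X]
  intro he
  have h1 := right_ne_zero_of_mul_eq_one h
  refine (Finset.prod_ne_zero_iff.mp (Finset.prod_ne_zero_iff.mp h1 i (Finset.mem_univ i)) j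
    (Finset.mem_erase.mpr ⟨hij.symm, Finset.mem_univ j⟩)) ?_
  rw [he, sub_self]

theorem hd_WK : ∀ w ∈ WK p q N m D, ∀ i j, i ≠ j →
    MvPolynomial.eval w (eK n κ N m D i) ≠ MvPolynomial.eval w (eK n κ N m D j) :=
  fun _ hw i j hij => ne_of_dist hw.dist i j hij

theorem simple_of {w : Fin (nk n κ N m D) → ℂ}
    (h : ∀ x s z : ℂ, z * ∏ i, (x - MvPolynomial.eval w (eK n κ N m D i)) = 1 →
      (etP N (cK n κ N m D) w x).eval s = 0 →
      bev (fun α => w (τv α)) ![x, s, z] * (etP N (cK n κ N m D) w x).derivative.eval s = 1) :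
    ∀ x, (∀ i, x ≠ MvPolynomial.eval w (eK n κ N m D i)) → ∀ s,
      (etP N (cK n κ N m D) w x).eval s = 0 →
      (etP N (cK n κ N m D) w x).derivative.eval s ≠ 0 := by
  intro x hx s hs
  have h0 : ∏ i, (x - MvPolynomial.eval w (eK n κ N m D i)) ≠ 0 :=
    Finset.prod_ne_zero_iff.mpr (fun i _ => sub_ne_zero.mpr (hx i))
  exact right_ne_zero_of_mul_eq_one (h x s _ (inv_mul_cancel₀ h0) hs)

theorem het_WK : ∀ w ∈ WK p q N m D, ∀ x, (∀ i, x ≠ MvPolynomial.eval w (eK n κ N m D i)) → ∀ s,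
      (etP N (cK n κ N m D) w x).eval s = 0 →
      (etP N (cK n κ N m D) w x).derivative.eval s ≠ 0 :=
  fun _ hw => simple_of (fun x s z hz hs => (hw.curve x s z hz hs).1)

theorem algSet_WK : AlgSet (WK p q N m D) := by
  obtain ⟨A₁, hA₁, h₁, h₁'⟩ := algCond (cK n κ N m D) (eK n κ N m D)
    (bS τv * dP (cK n κ N m D) - 1)
  choose A₂ hA₂ h₂ h₂' using fun i => algCond (cK n κ N m D) (eK n κ N m D)
    (MvPolynomial.bind₁ (fun b => bS (τF b)) (PT p i))
  obtain ⟨A₃, hA₃, h₃, h₃'⟩ := algCond (cK n κ N m D) (eK n κ N m D)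
    (∑ j, bS (τg j) * MvPolynomial.bind₁ (fun b => bS (τF b)) (QT q j) - 1)
  have e1 : ∀ (w : Fin (nk n κ N m D) → ℂ) x s z, MvPolynomial.eval (pt3 w x s z)
      (bS τv * dP (cK n κ N m D) - 1) = bev (fun α => w (τv α)) ![x, s, z] *
        (etP N (cK n κ N m D) w x).derivative.eval s - 1 := by
    intro w x s z
    rw [map_sub, map_mul, map_one, eval_bS, eval_dP]
  have e2 : ∀ (w : Fin (nk n κ N m D) → ℂ) x s z (g : MvPolynomial (TI n) ℂ),
      MvPolynomial.eval (pt3 w x s z) (MvPolynomial.bind₁ (fun b => bS (τF b)) g) =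
        MvPolynomial.eval (fun b => bev (fun α => w (τF b α)) ![x, s, z]) g := by
    intro w x s z g
    have : ∀ g : MvPolynomial (TI n) ℂ, MvPolynomial.eval (pt3 w x s z)
        (MvPolynomial.bind₁ (fun b => bS (τF b)) g) =
        MvPolynomial.eval (fun b => MvPolynomial.eval (pt3 w x s z) (bS (τF b))) g := by
      intro g
      induction g using MvPolynomial.induction_on with
      | C z => simp
      | add p q hp hq => rw [map_add, map_add, hp, hq, map_add]
      | mul_X p j hp => rw [map_mul, map_mul, hp, map_mul, MvPolynomial.bind₁_X_right,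
          MvPolynomial.eval_X]
    rw [this]
    simp only [eval_bS]
  have e3 : ∀ (w : Fin (nk n κ N m D) → ℂ) x s z, MvPolynomial.eval (pt3 w x s z)
      (∑ j, bS (τg j) * MvPolynomial.bind₁ (fun b => bS (τF b)) (QT q j) - 1) =
      ∑ j, bev (fun α => w (τg j α)) ![x, s, z] *
        MvPolynomial.eval (fun b => bev (fun α => w (τF b α)) ![x, s, z]) (QT q j) - 1 := by
    intro w x s z
    rw [map_sub, map_sum, map_one]
    congr 1
    refine Finset.sum_congr rfl (fun j _ => ?_)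
    rw [map_mul, e2, eval_bS]
  simp only [e1] at h₁ h₁'
  simp only [e2] at h₂ h₂'
  simp only [e3] at h₃ h₃'
  have hE : WK p q N m D = {w | w τu * ∏ i : Fin m, ∏ j ∈ Finset.univ.erase i,
      (w (τe i) - w (τe j)) - 1 = 0} ∩ A₁ ∩ (⋂ i, A₂ i) ∩ A₃ := by
    ext w
    constructor
    · intro hw
      have hs := het_WK w hw
      refine ⟨⟨⟨sub_eq_zero.mpr hw.dist, h₁' w hs fun x s z hz h0 =>
        sub_eq_zero.mpr (hw.curve x s z hz h0).1⟩, mem_iInter.mpr fun i => h₂' i w hs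
        fun x s z hz h0 => (hw.curve x s z hz h0).2.1 i⟩, h₃' w hs fun x s z hz h0 =>
        sub_eq_zero.mpr (hw.curve x s z hz h0).2.2⟩
    · rintro ⟨⟨⟨h0, h1⟩, h2⟩, h3⟩
      rw [mem_iInter] at h2
      exact ⟨sub_eq_zero.mp h0, fun x s z hz hs => ⟨sub_eq_zero.mp (h₁ w h1 x s z hz hs),
        fun i => h₂ i w (h2 i) x s z hz hs, sub_eq_zero.mp (h₃ w h3 x s z hz hs)⟩⟩
  rw [hE]
  refine (((AlgSet.zero ?_).inter hA₁).inter (AlgSet.iInter hA₂)).inter hA₃
  exact ((PolyF.coord _).mul (PolyF.prod _ (fun i => PolyF.prod _ (fun j =>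
    (PolyF.coord _).sub (PolyF.coord _))))).sub (PolyF.const 1)

end

end Pool.Agent.X316.ET
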