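import Mathlib
import Pool.Agent.X316.ET.Par

/-! The test families of maps of étale curves. -/

set_option autoImplicit false

open Topology Set

namespace Pool.Agent.X316.ET

open Pool.Agent.Y193.FG Pool.Agent.X325.ET Pool.Agent.X325.HS

section

variable {a r : ℕ} {N m : ℕ}

/-- the values of the polynomials `H` -/
noncomputable def hv (H : Fin a → MvPolynomial (Fin r) ℂ) (u : Fin r → ℂ) : Fin a → ℂ :=
  fun i => MvPolynomial.eval u (H i)

/-- the pull back of the coefficients -/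
noncomputable def pc (H : Fin a → MvPolynomial (Fin r) ℂ)
    (c : Fin N → MvPolynomial (Fin (a + 1)) ℂ) (j : Fin N) : MvPolynomial (Fin (r + 1)) ℂ :=
  MvPolynomial.aeval (Fin.snoc (α := fun _ => MvPolynomial (Fin (r + 1)) ℂ)
    (fun i => MvPolynomial.rename Fin.castSucc (H i)) (MvPolynomial.X (Fin.last r))) (c j)

noncomputable def pe (H : Fin a → MvPolynomial (Fin r) ℂ)
    (e : Fin m → MvPolynomial (Fin a) ℂ) (i : Fin m) : MvPolynomial (Fin r) ℂ :=
  MvPolynomial.bind₁ H (e i)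

theorem eval_pe (H : Fin a → MvPolynomial (Fin r) ℂ) (e : Fin m → MvPolynomial (Fin a) ℂ)
    (i : Fin m) (u : Fin r → ℂ) :
    MvPolynomial.eval u (pe H e i) = MvPolynomial.eval (hv H u) (e i) := eval_bind _ _ _

theorem eval_pc (H : Fin a → MvPolynomial (Fin r) ℂ) (c : Fin N → MvPolynomial (Fin (a + 1)) ℂ)
    (j : Fin N) (u : Fin r → ℂ) (x : ℂ) :
    MvPolynomial.eval (Fin.snoc (α := fun _ => ℂ) u x) (pc H c j) =
      MvPolynomial.eval (Fin.snoc (α := fun _ => ℂ) (hv H u) x) (c j) := by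
  unfold pc
  generalize c j = g
  induction g using MvPolynomial.induction_on with
  | C z => simp
  | add p q hp hq => rw [map_add, map_add, hp, hq, map_add]
  | mul_X p j hp =>
    rw [map_mul, map_mul, hp, map_mul, MvPolynomial.aeval_X, MvPolynomial.eval_X]
    congr 1
    refine Fin.lastCases ?_ (fun i => ?_) j
    · rw [Fin.snoc_last, Fin.snoc_last, MvPolynomial.eval_X, Fin.snoc_last]
    · rw [Fin.snoc_castSucc, Fin.snoc_castSucc, MvPolynomial.eval_rename]
      unfold hv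
      congr 2
      funext k
      exact Fin.snoc_castSucc _ _ _

theorem etP_pc (H : Fin a → MvPolynomial (Fin r) ℂ) (c : Fin N → MvPolynomial (Fin (a + 1)) ℂ)
    (u : Fin r → ℂ) (x : ℂ) : etP N (pc H c) u x = etP N c (hv H u) x := by
  unfold etP
  simp only [eval_pc]

theorem algSet_EtY {U : Set (Fin r → ℂ)} (hU : AlgSet U) (c : Fin N → MvPolynomial (Fin (r + 1)) ℂ)
    (e : Fin m → MvPolynomial (Fin r) ℂ) : AlgSet (EtY U N c e) := by
  have h : EtY U N c e = {y | (fun j => y (Fin.castAdd 3 j)) ∈ U} ∩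
    {y | y (Fin.natAdd r 1) ^ N + ∑ j : Fin N, MvPolynomial.eval (Fin.snoc (α := fun _ => ℂ)
      (fun j => y (Fin.castAdd 3 j)) (y (Fin.natAdd r 0))) (c j) * y (Fin.natAdd r 1) ^ (j : ℕ)
        = 0} ∩ {y | y (Fin.natAdd r 2) *
      ∏ i, (y (Fin.natAdd r 0) - MvPolynomial.eval (fun j => y (Fin.castAdd 3 j)) (e i)) - 1
        = 0} := by
    ext y
    simp only [mem_inter_iff, mem_setOf_eq, sub_eq_zero, and_assoc]
    rfl
  rw [h]
  refine ((hU.preimage (fun j => PolyF.coord _)).inter (AlgSet.zero ?_)).inter (AlgSet.zero ?_)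
  · refine ((PolyF.coord _).pow _).add (PolyF.sum _ (fun j => PolyF.mul ?_ ((PolyF.coord _).pow _)))
    refine PolyF.comp (φ := fun l y => Fin.snoc (α := fun _ => ℂ)
      (fun j => y (Fin.castAdd 3 j)) (y (Fin.natAdd r 0)) l) (fun l => ?_) (c j)
    refine Fin.lastCases ?_ (fun i => ?_) l
    · simp only [Fin.snoc_last]
      exact PolyF.coord _
    · simp only [Fin.snoc_castSucc]
      exact PolyF.coord _
  · refine ((PolyF.coord _).mul (PolyF.prod _ (fun i => (PolyF.coord _).sub ?_))).sub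
      (PolyF.const 1)
    exact PolyF.comp (fun l => PolyF.coord _) (e i)

end

section

variable {n : ℕ} {ι κ : Type} [Fintype κ] {N m D r : ℕ}
  {p : ι → MvPolynomial (Fin (n + 1)) ℂ} {q : κ → MvPolynomial (Fin (n + 1)) ℂ}

/-- the family of the curves with parameters in `U` -/
def YK {U : Set (Fin r → ℂ)} (_ : U = U) (N m D : ℕ)
    (H : Fin (nk n κ N m D) → MvPolynomial (Fin r) ℂ) : Set (Fin (r + 3) → ℂ) :=
  EtY U N (pc H (cK n κ N m D)) (pe H (eK n κ N m D))

variable {U : Set (Fin r → ℂ)} {H : Fin (nk n κ N m D) → MvPolynomial (Fin r) ℂ}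

/-- the matrix of a point of the family -/
noncomputable def MK (H : Fin (nk n κ N m D) → MvPolynomial (Fin r) ℂ) (y : Fin (r + 3) → ℂ) :
    TI n → ℂ :=
  fun b => bev (fun α => hv H (fun j => y (Fin.castAdd 3 j)) (τF b α))
    ![y (Fin.natAdd r 0), y (Fin.natAdd r 1), y (Fin.natAdd r 2)]

theorem polyF_MK (b : TI n) : PolyF (fun y : Fin (r + 3) → ℂ => MK H y b) := by
  refine polyF_bev (fun α => ?_) (y := fun j y =>
    (![y (Fin.natAdd r 0), y (Fin.natAdd r 1), y (Fin.natAdd r 2)] : Fin 3 → ℂ) j) (fun j => ?_)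
  · exact PolyF.comp (fun l => PolyF.coord _) (H (τF b α))
  · fin_cases j
    · exact PolyF.coord _
    · exact PolyF.coord _
    · exact PolyF.coord _

theorem curve_of_mem {y : Fin (r + 3) → ℂ}
    (hy : y ∈ EtY U N (pc H (cK n κ N m D)) (pe H (eK n κ N m D))) :
    y (Fin.natAdd r 2) * ∏ i, (y (Fin.natAdd r 0) -
      MvPolynomial.eval (hv H (fun j => y (Fin.castAdd 3 j))) (eK n κ N m D i)) = 1 ∧
    (etP N (cK n κ N m D) (hv H (fun j => y (Fin.castAdd 3 j))) (y (Fin.natAdd r 0))).eval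
      (y (Fin.natAdd r 1)) = 0 := by
  obtain ⟨h1, h2, h3⟩ := hy
  constructor
  · simp only [eval_pe] at h3
    exact h3
  · rw [eval_etP]
    simp only [eval_pc] at h2
    exact h2

theorem MK_mem (hUH : ∀ u ∈ U, hv H u ∈ WK p q N m D) {y : Fin (r + 3) → ℂ}
    (hy : y ∈ EtY U N (pc H (cK n κ N m D)) (pe H (eK n κ N m D))) :
    MK H y ∈ QA (PT p) (QT q) := by
  obtain ⟨h1, h2⟩ := curve_of_mem hy
  have h3 := (hUH _ hy.1).curve _ _ _ h1 h2
  exact mem_QA_of h3.2.1 h3.2.2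

/-- the map of the family -/
noncomputable def phK (hUH : ∀ u ∈ U, hv H u ∈ WK p q N m D) (ρ : C(QA (PT p) (QT q), QP p q)) :
    C(EtY U N (pc H (cK n κ N m D)) (pe H (eK n κ N m D)), QP p q) :=
  ρ.comp ⟨fun y => ⟨MK H y.1, MK_mem hUH y.2⟩, Continuous.subtype_mk (continuous_pi (fun b =>
    (polyF_MK b).continuous.comp continuous_subtype_val)) _⟩

variable (hp : ∀ i, ∃ d, (p i).IsHomogeneous d) (hq : ∀ j, ∃ d, (q j).IsHomogeneous d)
  {ρ : C(QA (PT p) (QT q), QP p q)}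
  (hρ : ∀ (v η : Fin (n + 1) → ℂ) (hv : v ≠ 0) (h : outer v η ∈ QA (PT p) (QT q)),
        ∑ i, v i * η i = 1 → (ρ ⟨outer v η, h⟩).1 = CP.mk v hv)
  (hUH : ∀ u ∈ U, hv H u ∈ WK p q N m D)

include hp hq hρ in
theorem regular_phK : IsRegularMap (EtY U N (pc H (cK n κ N m D)) (pe H (eK n κ N m D)))
    (fun y => (phK hUH ρ y).1) := by
  choose F hF using (fun b : TI n => polyF_MK (H := H) b)
  refine ⟨n + 1, fun l i => F (i, l), fun y => ?_⟩
  have hcol : ∀ l, (fun i => MvPolynomial.eval y.1 (F (i, l))) = fun i => MK H y.1 (i, l) :=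
    fun l => funext (fun i => (hF (i, l) y.1).symm)
  have hM := MK_mem hUH y.2
  obtain ⟨v, η, hv, h1, h2, h3⟩ := exists_outer hp hq hM
  have h4 : (phK hUH ρ y).1 = CP.mk v hv := by
    have h5 : (phK hUH ρ y) = ρ ⟨outer v η, by rw [← h3]; exact hM⟩ :=
      congrArg ρ (Subtype.ext h3)
    rw [h5]
    exact hρ v η hv _ h2
  constructor
  · by_contra hcon
    push Not at hcon
    have h5 : ∑ i, MK H y.1 (i, i) = 1 := by
      rw [h3]
      exact h2
    rw [Finset.sum_eq_zero (fun i _ => ?_)] at h5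
    · exact zero_ne_one h5
    · exact (hF (i, i) y.1).trans (congrFun (hcon i) i)
  · intro l h
    refine h4.trans ?_
    have h5 : (fun i => MvPolynomial.eval y.1 (F (i, l))) = η l • v := by
      rw [hcol, h3]
      funext i
      show v i * η l = η l * v i
      ring
    have hη : η l ≠ 0 := by
      intro h0
      rw [h0, zero_smul] at h5
      exact h h5
    exact ((mk_eq_mk (hv := h) (hw := hv)).mpr ⟨_, hη, h5⟩).symm

include hUH in
theorem hd_U : ∀ u ∈ U, ∀ i j, i ≠ j → MvPolynomial.eval u (pe H (eK n κ N m D) i) ≠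
    MvPolynomial.eval u (pe H (eK n κ N m D) j) := by
  intro u hu i j hij
  rw [eval_pe, eval_pe]
  exact hd_WK _ (hUH u hu) i j hij

include hUH in
theorem het_U : ∀ u ∈ U, ∀ x, (∀ i, x ≠ MvPolynomial.eval u (pe H (eK n κ N m D) i)) → ∀ s,
      (etP N (pc H (cK n κ N m D)) u x).eval s = 0 →
      (etP N (pc H (cK n κ N m D)) u x).derivative.eval s ≠ 0 := by
  intro u hu x hx s
  rw [etP_pc]
  simp only [eval_pe] at hx
  exact het_WK _ (hUH u hu) x hx s

include hp hq hρ in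
theorem isTest_K (hU : AlgSet U) (hc : ∀ y ∈ EtY U N (pc H (cK n κ N m D)) (pe H (eK n κ N m D)),
      IsPathConnected (Fib (EtY U N (pc H (cK n κ N m D)) (pe H (eK n κ N m D))) (EtPi r) y)) :
    IsTestFamily (EtY U N (pc H (cK n κ N m D)) (pe H (eK n κ N m D))) (EtPi r)
      (phK hUH ρ) :=
  ⟨algSet_EtY hU _ _, regular_phK hp hq hρ hUH, hc, hasTransport_EtY (hd_U hUH) (het_U hUH)⟩

include hUH in
/-- if one fibre is good then all are -/
theorem good_all {C : ∀ (G : Type) [Group G], Prop} (hC : IsExtClass C)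
    (hU : IsPathConnected U) {y₀ : Fin (r + 3) → ℂ}
    (hy₀ : y₀ ∈ EtY U N (pc H (cK n κ N m D)) (pe H (eK n κ N m D)))
    (h1 : IsPathConnected (Fib (EtY U N (pc H (cK n κ N m D)) (pe H (eK n κ N m D)))
      (EtPi r) y₀)) (h2 : PiImageIn C (toFib (π := EtPi r) (phK hUH ρ) y₀)) :
    (∀ y ∈ EtY U N (pc H (cK n κ N m D)) (pe H (eK n κ N m D)),
      IsPathConnected (Fib (EtY U N (pc H (cK n κ N m D)) (pe H (eK n κ N m D))) (EtPi r) y)) ∧
    FibreImagesIn (EtY U N (pc H (cK n κ N m D)) (pe H (eK n κ N m D))) (EtPi r)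
      (phK hUH ρ) C := by
  refine ⟨fun y hy => fib_move_EtY (hd_U hUH) (het_U hUH) hy₀ hy
    (hU.joinedIn _ hy₀.1 _ hy.1) h1, fun y hy => ?_⟩
  exact pi_move_EtY hC.sub (hd_U hUH) (het_U hUH) (hU.joinedIn _ hy₀.1 _ hy.1) _ h2

end

end Pool.Agent.X316.ET
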