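import Mathlib
import Pool.Agent.X316.ET.TF
import Pool.Agent.X316.EC.Main
import Pool.Agent.X325.ET.Ex

/-! Fundamental groups of varieties connected by chains of curves. -/

set_option autoImplicit false

open Topology Set

namespace Pool.Agent.X316.ET

open Pool.Agent.Y193.FG Pool.Agent.Y193.CS Pool.Agent.X325.HS
open Pool.Agent.X325.ET (EtC IsEtale CurveLinked EtY EtPi etP ecP ecP_eq exists_data ofE ofE_left
  ofE_right ofE_mem fib_of_EtC pi_of_EtC eval_EtPi eval_aeval0)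

section

variable {n : ℕ} {ι κ : Type} [Fintype κ]
  {p : ι → MvPolynomial (Fin (n + 1)) ℂ} {q : κ → MvPolynomial (Fin (n + 1)) ℂ}

/-- the links are given by countably many families of test varieties -/
def FamPack (p : ι → MvPolynomial (Fin (n + 1)) ℂ) (q : κ → MvPolynomial (Fin (n + 1)) ℂ)
    (C : ∀ (G : Type) [Group G], Prop) (L : CP n → CP n → Prop) : Prop :=
  ∃ (K : Type) (_ : Countable K) (r a : K → ℕ) (𝒴 : ∀ k, Set (Fin (r k) → ℂ))
    (π : ∀ k, Fin (a k) → MvPolynomial (Fin (r k)) ℂ) (φ : ∀ k, C(𝒴 k, QP p q)),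
    (∀ k, IsTestFamily (𝒴 k) (π k) (φ k)) ∧ (∀ k, FibreImagesIn (𝒴 k) (π k) (φ k) C) ∧
    ∀ x x', L x x' → FamLinked (QP p q) 𝒴 π φ x x'

variable {C : ∀ (G : Type) [Group G], Prop}

theorem FamPack.or {L L' : CP n → CP n → Prop} (h : FamPack p q C L) (h' : FamPack p q C L') :
    FamPack p q C (fun x x' => L x x' ∨ L' x x') := by
  obtain ⟨K, _, r, a, 𝒴, π, φ, h1, h2, h3⟩ := h
  obtain ⟨K', _, r', a', 𝒴', π', φ', h1', h2', h3'⟩ := h'
  refine ⟨K ⊕ K', inferInstance, Sum.elim r r', Sum.elim a a', fun j => match j with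
    | Sum.inl j => 𝒴 j
    | Sum.inr j => 𝒴' j, fun j => match j with
    | Sum.inl j => π j
    | Sum.inr j => π' j, fun j => match j with
    | Sum.inl j => φ j
    | Sum.inr j => φ' j, ?_, ?_, ?_⟩
  · rintro (k | k)
    · exact h1 k
    · exact h1' k
  · rintro (k | k)
    · exact h2 k
    · exact h2' k
  · rintro x x' (h | h)
    · obtain ⟨k, y, y', h4, h5, h6⟩ := h3 x x' h
      exact ⟨Sum.inl k, y, y', h4, h5, h6⟩
    · obtain ⟨k, y, y', h4, h5, h6⟩ := h3' x x' h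
      exact ⟨Sum.inr k, y, y', h4, h5, h6⟩

theorem main_pack (hC : IsExtClass C) (hZ : C (Multiplicative ℤ))
    (hp : ∀ i, ∃ d, (p i).IsHomogeneous d) (hq : ∀ j, ∃ d, (q j).IsHomogeneous d)
    (hs : IsSmooth (QP p q)) (hc : IsConnected (QP p q)) {L : CP n → CP n → Prop}
    (hL : FamPack p q C L) {x₀ : CP n} (hx₀ : x₀ ∈ QP p q)
    (hthin : ¬ IsThin (QP p q) {x | Relation.ReflTransGen
      (fun x x' => L x x' ∨ TorusLinked (QP p q) x x' ∨ EntLinked p q x x') x₀ x})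
    (x : QP p q) : Virtually C (FundamentalGroup (QP p q) x) := by
  obtain ⟨K, _, r, a, 𝒴, π, φ, h1, h2, h3⟩ := hL
  refine main_families_mixed hp hq hs hc (K₀ := Empty) (r₀ := fun k => k.elim)
    (Y := fun k => k.elim) (fun k => k.elim) (fun k => k.elim) h1 hC
    hZ (fun k => k.elim) h2 hx₀ (fun hthin' => hthin ?_) x
  obtain ⟨G, g1, g2, g3⟩ := hthin'
  refine ⟨G, g1, g2, fun v hv hv' => g3 v hv ?_⟩
  have hmono : ∀ y, Relation.ReflTransGen
      (fun x x' => L x x' ∨ TorusLinked (QP p q) x x' ∨ EntLinked p q x x') x₀ y →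
      Relation.ReflTransGen (fun x x' => MixedLinked p q (K := Empty) (r := fun k => k.elim)
        (fun k => k.elim) x x' ∨ FamLinked (QP p q) 𝒴 π φ x x') x₀ y := by
    intro y hy
    induction hy with
    | refl => exact Relation.ReflTransGen.refl
    | tail _ hab ih =>
      refine ih.tail ?_
      rcases hab with hab | hab | hab
      · exact Or.inr (h3 _ _ hab)
      · exact Or.inl (Or.inr (Or.inl hab))
      · exact Or.inl (Or.inl hab)
  exact hmono _ hv'

/-- the elliptic curves -/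
theorem pack_ell (hp : ∀ i, ∃ d, (p i).IsHomogeneous d) (hq : ∀ j, ∃ d, (q j).IsHomogeneous d) :
    FamPack p q Pool.Agent.X325.EC.Poly (Pool.Agent.X316.EC.EllLinked (QP p q)) := by
  obtain ⟨ρ, hρ⟩ := exists_rho hp hq
  exact ⟨ℕ × ℕ × ℕ, inferInstance, _, _, fun k => Pool.Agent.X316.EC.YS p q k.1 k.2.1 k.2.2,
    fun k => Pool.Agent.X325.EC.CubPi (Pool.Agent.X316.EC.na n κ k.1 k.2.1),
    fun k => Pool.Agent.X316.EC.phS ρ, fun k => Pool.Agent.X316.EC.isTest_YS hp hq hρ,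
    fun k => Pool.Agent.X316.EC.images_YS hp hq hρ,
    fun x x' h => Pool.Agent.X316.EC.famLinked_of hp hq hρ h⟩

theorem eval_aeval1 (y : Fin 1 → ℂ) (f : Polynomial ℂ) :
    MvPolynomial.eval y (Polynomial.aeval (MvPolynomial.X 0 : MvPolynomial (Fin 1) ℂ) f) =
      f.eval (y 0) := by
  induction f using Polynomial.induction_on' with
  | add f g hf hg => rw [map_add, map_add, hf, hg, Polynomial.eval_add]
  | monomial k a => simp [MvPolynomial.algebraMap_eq, Polynomial.aeval_monomial]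

/-- every curve is given by parameters -/
theorem exists_parK (hp : ∀ i, ∃ d, (p i).IsHomogeneous d)
    (hq : ∀ j, ∃ d, (q j).IsHomogeneous d) {N m : ℕ} {c : Fin N → Polynomial ℂ} {e : Fin m → ℂ}
    (het : IsEtale N c e) (φ : C(EtC N c e, QP p q))
    (hφ : IsRegularMap (EtC N c e) (fun y => (φ y).1)) :
    ∃ (D : ℕ) (w : Fin (nk n κ N m D) → ℂ), w ∈ WK p q N m D ∧
      (∀ j x, (c j).eval x = MvPolynomial.eval (Fin.snoc (α := fun _ => ℂ) w x)
        (cK n κ N m D j)) ∧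
      (∀ i, e i = MvPolynomial.eval w (eK n κ N m D i)) ∧
      ∀ (y : EtC N c e), ∃ (v η : Fin (n + 1) → ℂ) (hv : v ≠ 0), (φ y).1 = CP.mk v hv ∧
        ∑ i, v i * η i = 1 ∧
        (fun b => bev (fun α => w (τF b α)) ![y.1 0, y.1 1, y.1 2]) = outer v η := by
  obtain ⟨F, v, g, hdat⟩ := exists_data hp hq het φ hφ
  obtain ⟨d₁, h₁⟩ := exists_bev_fin F
  obtain ⟨d₂, h₂⟩ := exists_bev v
  obtain ⟨d₃, h₃⟩ := exists_bev_fin g
  obtain ⟨d₄, h₄⟩ := exists_bev_fin (fun j : Fin N =>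
    Polynomial.aeval (MvPolynomial.X 0 : MvPolynomial (Fin 1) ℂ) (c j))
  let D := d₁ + d₂ + d₃ + d₄
  obtain ⟨cF, hF⟩ := h₁ D (by omega)
  obtain ⟨cv, hv⟩ := h₂ D (by omega)
  obtain ⟨cg, hg⟩ := h₃ D (by omega)
  obtain ⟨cc, hc⟩ := h₄ D (by omega)
  let w₀ : PK n κ N m D → ℂ := Sum.elim (fun b => cc b.1 b.2) (Sum.elim e (Sum.elim
    (fun _ => (∏ i : Fin m, ∏ j ∈ Finset.univ.erase i, (e i - e j))⁻¹) (Sum.elim cv
      (Sum.elim (fun b => cF b.1 b.2) (fun b => cg b.1 b.2)))))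
  let w : Fin (nk n κ N m D) → ℂ := fun i => w₀ ((sk n κ N m D).symm i)
  have hw : ∀ b, w (sk n κ N m D b) = w₀ b := fun b => by
    show w₀ _ = _
    rw [Equiv.symm_apply_apply]
  have hwF : ∀ b, (fun α => w (τF b α)) = cF b := fun b => funext (fun α => hw _)
  have hwg : ∀ b, (fun α => w (τg b α)) = cg b := fun b => funext (fun α => hw _)
  have hwv : (fun α => w (τv α)) = cv := funext (fun α => hw _)
  have hwc : ∀ j, (fun α => w (τc j α)) = cc j := fun b => funext (fun α => hw _)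
  have hwe : ∀ i, w (τe i) = e i := fun i => hw _
  have hwu : w τu = (∏ i : Fin m, ∏ j ∈ Finset.univ.erase i, (e i - e j))⁻¹ := hw _
  have hc' : ∀ j x, (c j).eval x = MvPolynomial.eval (Fin.snoc (α := fun _ => ℂ) w x)
      (cK n κ N m D j) := by
    intro j x
    rw [eval_cK, hwc, ← hc, eval_aeval1]
    rfl
  have he' : ∀ i, e i = MvPolynomial.eval w (eK n κ N m D i) := by
    intro i
    unfold eK
    rw [MvPolynomial.eval_X, hwe]
  refine ⟨D, w, ⟨?_, ?_⟩, hc', he', ?_⟩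
  · simp only [hwe, hwu]
    refine inv_mul_cancel₀ (Finset.prod_ne_zero_iff.mpr (fun i _ => Finset.prod_ne_zero_iff.mpr
      (fun j hj => sub_ne_zero.mpr (fun h => (Finset.mem_erase.mp hj).1 (het.1 h).symm))))
  · intro x s z hz hs
    have hy : (![x, s, z] : Fin 3 → ℂ) ∈ EtC N c e := by
      rw [← ecP_eq hc'] at hs
      simp only [← he'] at hz
      rw [Pool.Agent.X325.ET.eval_ecP] at hs
      exact ⟨hs, hz⟩
    obtain ⟨-, h1, h2, h3⟩ := hdat _ hy
    rw [hwv, ← hv, ← ecP_eq hc']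
    refine ⟨h2, ?_, ?_⟩
    · intro i
      simp only [hwF, ← hF]
      exact h1.1 i
    · simp only [hwF, ← hF, hwg, ← hg]
      exact h3
  · intro y
    obtain ⟨⟨u, η, hu, h1, h2, h3⟩, -⟩ := hdat _ y.2
    refine ⟨u, η, hu, h1, h2, ?_⟩
    rw [← h3]
    funext b
    rw [hwF, ← hF]
    congr 2
    funext k
    fin_cases k <;> rfl

/-- the curves whose fundamental groups have images in the class `C` -/
theorem pack_curve (hC : IsExtClass C) (hp : ∀ i, ∃ d, (p i).IsHomogeneous d)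
    (hq : ∀ j, ∃ d, (q j).IsHomogeneous d) :
    FamPack p q C (CurveLinked (QP p q) C) := by
  obtain ⟨ρ, hρ⟩ := exists_rho hp hq
  have hcov : ∀ k : ℕ × ℕ × ℕ, Cov (WK p q k.1 k.2.1 k.2.2) := fun k => cov_algSet algSet_WK
  choose J hJ r U H hU1 hU2 hU3 hU4 using hcov
  let YY : ∀ s : Σ k, J k, Set (Fin (r s.1 s.2 + 3) → ℂ) := fun s =>
    EtY (U s.1 s.2) s.1.1 (pc (H s.1 s.2) (cK n κ s.1.1 s.1.2.1 s.1.2.2))
      (pe (H s.1 s.2) (eK n κ s.1.1 s.1.2.1 s.1.2.2))
  let PP : ∀ s : Σ k, J k, C(YY s, QP p q) := fun s => phK (U := U s.1 s.2) (hU3 s.1 s.2) ρ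
  let good : (Σ k, J k) → Prop := fun s =>
    (∀ y ∈ YY s, IsPathConnected (Fib (YY s) (EtPi (r s.1 s.2)) y)) ∧
      FibreImagesIn (YY s) (EtPi (r s.1 s.2)) (PP s) C
  have hJc : ∀ k, Countable (J k) := fun k => inferInstance
  refine ⟨{s : Σ k, J k // good s}, inferInstance, fun s => r s.1.1 s.1.2 + 3,
    fun s => r s.1.1 s.1.2, fun s => YY s.1, fun s => EtPi (r s.1.1 s.1.2), fun s => PP s.1,
    fun s => ?_, fun s => s.2.2, ?_⟩
  · exact isTest_K hp hq hρ (hU3 s.1.1 s.1.2) (hU1 s.1.1 s.1.2) s.2.1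
  · rintro x x' ⟨N, m, c, e, het, hcon, φ, hφ, hpi, ⟨y, rfl⟩, ⟨y', rfl⟩⟩
    obtain ⟨D, w, hw, hc', he', hval⟩ := exists_parK hp hq het φ hφ
    obtain ⟨j, u, hu, huw⟩ := hU4 (N, m, D) w hw
    let s : Σ k, J k := ⟨(N, m, D), j⟩
    have huw' : hv (H (N, m, D) j) u = w := huw
    have hcu : ∀ i x, (c i).eval x = MvPolynomial.eval (Fin.snoc (α := fun _ => ℂ) u x)
        (pc (H (N, m, D) j) (cK n κ N m D) i) := by
      intro i x
      rw [eval_pc, huw']
      exact hc' i x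
    have heu : ∀ i, e i = MvPolynomial.eval u (pe (H (N, m, D) j) (eK n κ N m D) i) := by
      intro i
      rw [eval_pe, huw']
      exact he' i
    have hmem : ∀ t : EtC N c e, ofE u t.1 ∈ YY s := fun t => ofE_mem hcu heu hu t.2
    have hΦ : ∀ t : EtC N c e, PP s ⟨ofE u t.1, hmem t⟩ = φ t := by
      intro t
      obtain ⟨v, η, hv', h1, h2, h3⟩ := hval t
      have h4 : MK (H (N, m, D) j) (ofE u t.1) = outer v η := by
        rw [← h3]
        funext b
        have h5 : (fun l => ofE u t.1 (Fin.castAdd 3 l)) = u := funext (fun l => ofE_left u t.1 l)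
        unfold MK
        rw [h5, huw', ofE_right, ofE_right, ofE_right]
      have hm := MK_mem (hU3 (N, m, D) j) (hmem t)
      have h5 : PP s ⟨ofE u t.1, hmem t⟩ = ρ ⟨outer v η, by rw [← h4]; exact hm⟩ :=
        congrArg ρ (Subtype.ext h4)
      apply Subtype.ext
      rw [h5, h1]
      exact hρ v η hv' _ h2
    have hpar : (fun l => ofE u y.1 (Fin.castAdd 3 l)) = u := funext (fun l => ofE_left u y.1 l)
    have hgood : good s := good_all (hU3 (N, m, D) j) hC (hU2 (N, m, D) j) (hmem y)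
      (fib_of_EtC hcu heu (hmem y) hpar hcon)
      (pi_of_EtC hC.sub hcu heu (hmem y) hpar φ (PP s) hΦ hpi)
    refine ⟨⟨s, hgood⟩, ⟨ofE u y.1, hmem y⟩, ⟨ofE u y'.1, hmem y'⟩, fun i => ?_, ?_, ?_⟩
    · show MvPolynomial.eval (ofE u y'.1) (EtPi _ i) = MvPolynomial.eval (ofE u y.1) (EtPi _ i)
      rw [eval_EtPi, eval_EtPi, ofE_left, ofE_left]
    · exact congrArg Subtype.val (hΦ y)
    · exact congrArg Subtype.val (hΦ y')

/-- **Varieties connected by chains of curves.** -/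
theorem main_curves (hC : IsExtClass C) (hZ : C (Multiplicative ℤ))
    (hp : ∀ i, ∃ d, (p i).IsHomogeneous d) (hq : ∀ j, ∃ d, (q j).IsHomogeneous d)
    (hs : IsSmooth (QP p q)) (hc : IsConnected (QP p q)) {x₀ : CP n} (hx₀ : x₀ ∈ QP p q)
    (hthin : ¬ IsThin (QP p q) {x | Relation.ReflTransGen
      (fun x x' => CurveLinked (QP p q) C x x' ∨ TorusLinked (QP p q) x x' ∨
        EntLinked p q x x') x₀ x})
    (x : QP p q) : Virtually C (FundamentalGroup (QP p q) x) :=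
  main_pack hC hZ hp hq hs hc (pack_curve hC hp hq) hx₀ hthin x

theorem main_curves_ell (hp : ∀ i, ∃ d, (p i).IsHomogeneous d)
    (hq : ∀ j, ∃ d, (q j).IsHomogeneous d)
    (hs : IsSmooth (QP p q)) (hc : IsConnected (QP p q)) {x₀ : CP n} (hx₀ : x₀ ∈ QP p q)
    (hthin : ¬ IsThin (QP p q) {x | Relation.ReflTransGen
      (fun x x' => (CurveLinked (QP p q) Pool.Agent.X325.EC.Poly x x' ∨
        Pool.Agent.X316.EC.EllLinked (QP p q) x x') ∨ TorusLinked (QP p q) x x' ∨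
        EntLinked p q x x') x₀ x})
    (x : QP p q) : Virtually Pool.Agent.X325.EC.Poly (FundamentalGroup (QP p q) x) :=
  main_pack Pool.Agent.X325.EC.poly_isExtClass Pool.Agent.X325.EC.poly_int hp hq hs hc
    ((pack_curve Pool.Agent.X325.EC.poly_isExtClass hp hq).or (pack_ell hp hq)) hx₀ hthin x

end

end Pool.Agent.X316.ET
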