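import Mathlib
import Pool.Agent.X316.ET.Main

/-! Étale charts of any dimension: any two points are joined by a chain of curves. -/

set_option autoImplicit false

open Topology Set Polynomial Filter

namespace Pool.Agent.X316.ET

open Pool.Agent.W327.F4

variable {n : ℕ}

/-- near a simple root the root can be followed along segments -/
theorem loc_seg (f : Polynomial (MvPolynomial (Fin n) ℂ)) (D : MvPolynomial (Fin n) ℂ)
    (z : (Fin n → ℂ) × ℂ) (h0 : ev z.1 z.2 f = 0) (h1 : ev z.1 z.2 (derivative f) ≠ 0)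
    (hD : MvPolynomial.eval z.1 D ≠ 0) :
    ∀ᶠ z' in 𝓝 z, ev z'.1 z'.2 f = 0 →
      ∃ S : unitInterval → ℂ, Continuous S ∧ S 0 = z.2 ∧ S 1 = z'.2 ∧ ∀ t : unitInterval,
        ev (z.1 + ((t : ℝ) : ℂ) • (z'.1 - z.1)) (S t) f = 0 ∧
        MvPolynomial.eval (z.1 + ((t : ℝ) : ℂ) • (z'.1 - z.1)) D ≠ 0 := by
  obtain ⟨x, τ⟩ := z
  set Φ : (Fin n → ℂ) × ℂ → ℂ := fun z => ev z.1 z.2 f with hΦ
  have hs : HasStrictFDerivAt Φ (fderiv ℂ Φ (x, τ)) (x, τ) := (analytic_ev f (x, τ)).hasStrictFDerivAt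
  set L := fderiv ℂ Φ (x, τ) with hL
  have hL1 : L (0, 1) = ev x τ (derivative f) := by
    have h2 : HasDerivAt (fun t : ℂ => Φ (x, t)) (L (0, 1)) τ := by
      have h3 : HasDerivAt (fun t : ℂ => ((x, t) : (Fin n → ℂ) × ℂ)) ((0 : Fin n → ℂ), (1:ℂ)) τ :=
        (hasDerivAt_const τ x).prodMk (hasDerivAt_id τ)
      exact hs.hasFDerivAt.comp_hasDerivAt τ h3
    have h4 : HasDerivAt (fun t : ℂ => Φ (x, t)) (ev x τ (derivative f)) τ := by
      rw [ev_derivative]
      exact (f.map (MvPolynomial.eval x)).hasDerivAt τ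
    exact h2.unique h4
  set c : ℂ := L (0, 1) with hc
  have hc0 : c ≠ 0 := by rw [hL1]; exact h1
  have hLs : ∀ (v : Fin n → ℂ) (s : ℂ), L (v, s) = L (v, 0) + s * c := by
    intro v s
    have : ((v, s) : (Fin n → ℂ) × ℂ) = (v, 0) + s • (0, 1) := by
      ext <;> simp
    rw [this, map_add, map_smul, smul_eq_mul]
  let P : (Fin n → ℂ) × ℂ →L[ℂ] (Fin n → ℂ) × ℂ :=
    (ContinuousLinearMap.fst ℂ (Fin n → ℂ) ℂ).prod L
  let Q : (Fin n → ℂ) × ℂ →L[ℂ] (Fin n → ℂ) × ℂ :=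
    (ContinuousLinearMap.fst ℂ (Fin n → ℂ) ℂ).prod
      (c⁻¹ • (ContinuousLinearMap.snd ℂ (Fin n → ℂ) ℂ -
        L.comp ((ContinuousLinearMap.fst ℂ (Fin n → ℂ) ℂ).prod 0)))
  have hP : ∀ v s, P (v, s) = (v, L (v, s)) := fun v s => rfl
  have hQ : ∀ v s, Q (v, s) = (v, c⁻¹ * (s - L (v, 0))) := fun v s => rfl
  let E : ((Fin n → ℂ) × ℂ) ≃L[ℂ] ((Fin n → ℂ) × ℂ) :=
    ContinuousLinearEquiv.equivOfInverse P Q (by
      rintro ⟨v, s⟩
      rw [hP, hQ, hLs v s]
      ext1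
      · rfl
      · show c⁻¹ * (L (v, 0) + s * c - L (v, 0)) = s
        field_simp
        ring) (by
      rintro ⟨v, s⟩
      rw [hQ, hP, hLs]
      ext1
      · rfl
      · show L (v, 0) + c⁻¹ * (s - L (v, 0)) * c = s
        field_simp
        ring)
  let Ψ : (Fin n → ℂ) × ℂ → (Fin n → ℂ) × ℂ := fun z => (z.1, Φ z)
  have hΨ : HasStrictFDerivAt Ψ (E : (Fin n → ℂ) × ℂ →L[ℂ] (Fin n → ℂ) × ℂ) (x, τ) :=
    hasStrictFDerivAt_fst.prodMk hs
  let H := hΨ.toOpenPartialHomeomorph Ψ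
  have hHc : (H : (Fin n → ℂ) × ℂ → (Fin n → ℂ) × ℂ) = Ψ := rfl
  have hsrc : (x, τ) ∈ H.source := hΨ.mem_toOpenPartialHomeomorph_source
  have htgt : (x, (0:ℂ)) ∈ H.target := by
    have h5 : H (x, τ) ∈ H.target := H.map_source hsrc
    have h6 : H (x, τ) = (x, (0:ℂ)) := by
      rw [hHc]
      exact Prod.ext rfl h0
    rwa [h6] at h5
  -- a ball
  have hcD : Continuous (fun y : Fin n → ℂ => MvPolynomial.eval y D) :=
    MvPolynomial.continuous_eval D
  obtain ⟨ε, hε, hball⟩ : ∃ ε > 0, ∀ y ∈ Metric.ball x ε, (y, (0:ℂ)) ∈ H.target ∧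
      MvPolynomial.eval y D ≠ 0 := by
    have h7 : ∀ᶠ y in 𝓝 x, (y, (0:ℂ)) ∈ H.target := by
      have : Tendsto (fun y : Fin n → ℂ => (y, (0:ℂ))) (𝓝 x) (𝓝 (x, (0:ℂ))) :=
        (Continuous.prodMk continuous_id continuous_const).tendsto x
      exact this (H.open_target.mem_nhds htgt)
    have h8 : ∀ᶠ y in 𝓝 x, MvPolynomial.eval y D ≠ 0 := hcD.continuousAt.eventually_ne hD
    exact Metric.eventually_nhds_iff_ball.mp (h7.and h8)
  have h9 : ∀ᶠ z' in 𝓝 (x, τ), z' ∈ H.source ∧ z'.1 ∈ Metric.ball x ε := by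
    have h9a : ∀ᶠ z' in 𝓝 (x, τ), z' ∈ H.source := H.open_source.mem_nhds hsrc
    have h9b : ∀ᶠ z' : (Fin n → ℂ) × ℂ in 𝓝 (x, τ), z'.1 ∈ Metric.ball x ε :=
      (continuous_fst.tendsto (x, τ)) (Metric.ball_mem_nhds x hε)
    exact h9a.and h9b
  filter_upwards [h9] with z' hz' hz'0
  obtain ⟨hz's, hz'b⟩ := hz'
  obtain ⟨x', τ'⟩ := z'
  -- the path
  let γ : ℝ → Fin n → ℂ := fun t => x + (t : ℂ) • (x' - x)
  have hγc : Continuous γ := by
    refine continuous_const.add ?_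
    exact (Complex.continuous_ofReal.smul continuous_const)
  have hγb : ∀ t ∈ Icc (0:ℝ) 1, γ t ∈ Metric.ball x ε := by
    intro t ht
    rw [Metric.mem_ball, dist_eq_norm] at hz'b ⊢
    have : γ t - x = (t : ℂ) • (x' - x) := by simp [γ]
    rw [this, norm_smul]
    have h10 : ‖(t : ℂ)‖ ≤ 1 := by
      rw [Complex.norm_real, Real.norm_eq_abs, abs_of_nonneg ht.1]
      exact ht.2
    calc ‖(t : ℂ)‖ * ‖x' - x‖ ≤ 1 * ‖x' - x‖ := by gcongr
      _ < ε := by rw [one_mul]; exact hz'b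
  let δ : ℝ → (Fin n → ℂ) × ℂ := fun t => H.symm (γ t, (0:ℂ))
  have hδ : ∀ t ∈ Icc (0:ℝ) 1, δ t ∈ H.source ∧ Ψ (δ t) = (γ t, 0) := by
    intro t ht
    have h11 := (hball _ (hγb t ht)).1
    exact ⟨H.map_target h11, H.right_inv h11⟩
  have hδV : ∀ t ∈ Icc (0:ℝ) 1, ev (δ t).1 (δ t).2 f = 0 ∧
      MvPolynomial.eval (δ t).1 D ≠ 0 := by
    intro t ht
    have h12 := (hδ t ht).2
    have h13 : (δ t).1 = γ t := congrArg Prod.fst h12
    refine ⟨congrArg Prod.snd h12, ?_⟩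
    rw [h13]
    exact (hball _ (hγb t ht)).2
  have hδ1 : ∀ t ∈ Icc (0:ℝ) 1, (δ t).1 = γ t := fun t ht => congrArg Prod.fst (hδ t ht).2
  refine ⟨fun t => (δ t.1).2, ?_, ?_, ?_, ?_⟩
  · refine continuous_iff_continuousAt.mpr (fun t => ?_)
    have h11 := (hball _ (hγb t.1 t.2)).1
    have h16 : ContinuousAt (fun t : unitInterval => H.symm (γ t.1, (0:ℂ))) t :=
      ContinuousAt.comp (f := fun t : unitInterval => ((γ t.1, (0:ℂ)) : (Fin n → ℂ) × ℂ))
        (H.continuousAt_symm h11)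
        ((Continuous.prodMk (hγc.comp continuous_subtype_val) continuous_const).continuousAt)
    exact continuous_snd.continuousAt.comp h16
  · have h14 : γ 0 = x := by simp [γ]
    show (H.symm (γ 0, (0:ℂ))).2 = τ
    rw [h14]
    have h15 : H (x, τ) = (x, (0:ℂ)) := Prod.ext rfl h0
    rw [← h15, H.left_inv hsrc]
  · have h14 : γ 1 = x' := by simp [γ]
    show (H.symm (γ 1, (0:ℂ))).2 = τ'
    rw [h14]
    have h15 : H (x', τ') = (x', (0:ℂ)) := Prod.ext rfl hz'0
    rw [← h15, H.left_inv hz's]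
  · intro t
    have h17 := hδV t.1 t.2
    rw [hδ1 t.1 t.2] at h17
    exact h17


/-- the irreducible factor along a path -/
theorem irr_factor (P : Polynomial (MvPolynomial (Fin 1) ℂ)) (Dl : MvPolynomial (Fin 1) ℂ)
    (hP : P.Monic)
    (hs : ∀ x τ, ev x τ P = 0 → MvPolynomial.eval x Dl ≠ 0 → ev x τ (derivative P) ≠ 0)
    (l : unitInterval → ℂ) (hl : Continuous l) (S : unitInterval → ℂ) (hS : Continuous S)
    (h : ∀ t, ev (fun _ => l t) (S t) P = 0 ∧ MvPolynomial.eval (fun _ => l t) Dl ≠ 0) :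
    ∃ g : Polynomial (MvPolynomial (Fin 1) ℂ), g.Monic ∧ Irreducible g ∧
      (∀ x τ, ev x τ g = 0 → MvPolynomial.eval x Dl ≠ 0 → ev x τ (derivative g) ≠ 0) ∧
      g ∣ P ∧ ∀ t, ev (fun _ => l t) (S t) g = 0 := by
  classical
  have hex : ∃ d : ℕ, ∃ g : Polynomial (MvPolynomial (Fin 1) ℂ), g.Monic ∧ g ∣ P ∧
      ev (fun _ => l 0) (S 0) g = 0 ∧ g.natDegree = d := ⟨_, P, hP, dvd_rfl, (h 0).1, rfl⟩
  obtain ⟨g, hg, hgP, hg0, hgd⟩ := Nat.find_spec hex
  have hmin : ∀ g' : Polynomial (MvPolynomial (Fin 1) ℂ), g'.Monic → g' ∣ P →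
      ev (fun _ => l 0) (S 0) g' = 0 → g.natDegree ≤ g'.natDegree := by
    intro g' h1 h2 h3
    rw [hgd]
    exact Nat.find_min' hex ⟨g', h1, h2, h3, rfl⟩
  have hgi : Irreducible g := by
    rw [hg.irreducible_iff_natDegree]
    refine ⟨?_, ?_⟩
    · rintro rfl
      rw [ev_one] at hg0
      exact one_ne_zero hg0
    · intro a b ha hb hab
      have h1 : ev (fun _ => l 0) (S 0) a * ev (fun _ => l 0) (S 0) b = 0 := by
        rw [← ev_mul, hab, hg0]
      have hdeg : g.natDegree = a.natDegree + b.natDegree := by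
        rw [← hab, ha.natDegree_mul hb]
      rcases mul_eq_zero.mp h1 with h2 | h2
      · right
        have := hmin a ha ((Dvd.intro _ hab).trans hgP) h2
        omega
      · left
        have := hmin b hb ((Dvd.intro_left _ hab).trans hgP) h2
        omega
  obtain ⟨k, hk⟩ := hgP
  have hder : ∀ x τ, ev x τ (derivative P) = ev x τ (derivative g) * ev x τ k +
      ev x τ g * ev x τ (derivative k) := by
    intro x τ
    rw [hk, derivative_mul, ev_add, ev_mul, ev_mul]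
  refine ⟨g, hg, hgi, fun x τ h1 h2 h3 => ?_, ⟨k, hk⟩, ?_⟩
  · refine hs x τ (by rw [hk, ev_mul, h1, zero_mul]) h2 ?_
    rw [hder, h3, h1, zero_mul, zero_mul, add_zero]
  · let c : unitInterval → (Fin 1 → ℂ) × ℂ := fun t => (fun _ => l t, S t)
    have hc : Continuous c := Continuous.prodMk (continuous_pi (fun _ => hl)) hS
    have hA : IsClosed {t : unitInterval | ev (c t).1 (c t).2 g = 0} :=
      isClosed_eq ((continuous_ev g).comp hc) continuous_const
    have hB : IsClosed {t : unitInterval | ev (c t).1 (c t).2 k = 0} :=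
      isClosed_eq ((continuous_ev k).comp hc) continuous_const
    have hAB : {t : unitInterval | ev (c t).1 (c t).2 g = 0}ᶜ =
        {t : unitInterval | ev (c t).1 (c t).2 k = 0} := by
      ext t
      have h1 : ev (c t).1 (c t).2 g * ev (c t).1 (c t).2 k = 0 := by
        rw [← ev_mul, ← hk]
        exact (h t).1
      constructor
      · intro h2
        exact (mul_eq_zero.mp h1).resolve_left h2
      · intro h2 h3
        refine hs _ _ (h t).1 (h t).2 ?_
        have h4 := hder (c t).1 (c t).2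
        rw [show ev (c t).1 (c t).2 k = 0 from h2, show ev (c t).1 (c t).2 g = 0 from h3, mul_zero,
          zero_mul, add_zero] at h4
        exact h4
    have hclopen : IsClopen {t : unitInterval | ev (c t).1 (c t).2 g = 0} := by
      refine ⟨hA, ?_⟩
      rw [← isClosed_compl_iff, hAB]
      exact hB
    have huniv := hclopen.eq_univ ⟨0, hg0⟩
    intro t
    have : t ∈ {t : unitInterval | ev (c t).1 (c t).2 g = 0} := by
      rw [huniv]
      trivial
    exact this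

end Pool.Agent.X316.ET
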