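import Mathlib
import Pool.Agent.X316.ET.Line

/-! Étale charts of any dimension: any two points are joined by a chain of curves. -/

set_option autoImplicit false

open Topology Set Polynomial Filter

namespace Pool.Agent.X316.ET

open Pool.Agent.W327.F4 Pool.Agent.Y193.FG Pool.Agent.Y193.CS
open Pool.Agent.X325.ET (EtC IsEtale CurveLinked ecP algSet_EtC range_comp_sub)

/-- the polynomial in one variable -/
noncomputable def one1 : MvPolynomial (Fin 1) ℂ →ₐ[ℂ] Polynomial ℂ :=
  MvPolynomial.aeval (fun _ => X)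

theorem eval_one1 (x : ℂ) (p : MvPolynomial (Fin 1) ℂ) :
    (one1 p).eval x = MvPolynomial.eval (fun _ => x) p := by
  induction p using MvPolynomial.induction_on with
  | C z => simp [one1]
  | add p q hp hq => rw [map_add, eval_add, hp, hq, map_add]
  | mul_X p j hp =>
    rw [map_mul, eval_mul, hp, map_mul, MvPolynomial.eval_X]
    congr 1
    simp [one1]

theorem curve_one (g : Polynomial (MvPolynomial (Fin 1) ℂ)) (Dl : MvPolynomial (Fin 1) ℂ)
    (hg : g.Monic) (hgi : Irreducible g) (hD : Dl ≠ 0)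
    (hs : ∀ x τ, ev x τ g = 0 → MvPolynomial.eval x Dl ≠ 0 → ev x τ (derivative g) ≠ 0) :
    ∃ (m : ℕ) (e : Fin m → ℂ) (c : Fin g.natDegree → Polynomial ℂ),
      IsEtale g.natDegree c e ∧ IsPathConnected (EtC g.natDegree c e) ∧
      (∀ y ∈ EtC g.natDegree c e, ev (fun _ => y 0) (y 1) g = 0 ∧
        MvPolynomial.eval (fun _ => y 0) Dl ≠ 0) ∧
      ∀ x s, ev (fun _ => x) s g = 0 → MvPolynomial.eval (fun _ => x) Dl ≠ 0 →
        ∃ y ∈ EtC g.natDegree c e, y 0 = x ∧ y 1 = s := by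
  classical
  have hfun : ∀ y : Fin 1 → ℂ, (fun _ => y 0) = y := fun y => funext (fun i => by
    rw [Subsingleton.elim i 0])
  have h1D : one1 Dl ≠ 0 := by
    intro h
    apply hD
    apply MvPolynomial.funext
    intro y
    rw [map_zero, ← hfun y, ← eval_one1, h, eval_zero]
  let R : Finset ℂ := (one1 Dl).roots.toFinset
  have hR : ∀ x, x ∈ R ↔ MvPolynomial.eval (fun _ => x) Dl = 0 := by
    intro x
    rw [← eval_one1, Multiset.mem_toFinset, mem_roots h1D, IsRoot]
  let e : Fin R.card → ℂ := fun i => (R.equivFin.symm i).1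
  have he : Function.Injective e := Subtype.val_injective.comp R.equivFin.symm.injective
  have heR : ∀ x, (∀ i, x ≠ e i) ↔ x ∉ R := by
    intro x
    constructor
    · intro h hx
      refine h (R.equivFin ⟨x, hx⟩) ?_
      show x = (R.equivFin.symm (R.equivFin ⟨x, hx⟩)).1
      rw [Equiv.symm_apply_apply]
    · rintro h i rfl
      exact h (R.equivFin.symm i).2
  have heD : ∀ x, (∀ i, x ≠ e i) ↔ MvPolynomial.eval (fun _ => x) Dl ≠ 0 := by
    intro x
    rw [heR, hR]
  let c : Fin g.natDegree → Polynomial ℂ := fun j => one1 (g.coeff j)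
  have hec : ∀ x, ecP g.natDegree c x = g.map (MvPolynomial.eval (fun _ => x)) := by
    intro x
    conv_rhs => rw [hg.as_sum]
    unfold ecP
    rw [Polynomial.map_add, Polynomial.map_pow, Polynomial.map_X, Polynomial.map_sum,
      Finset.sum_range]
    congr 1
    refine Finset.sum_congr rfl (fun j _ => ?_)
    rw [Polynomial.map_mul, Polynomial.map_C, Polynomial.map_pow, Polynomial.map_X, eval_one1]
  have hev : ∀ x s, (ecP g.natDegree c x).eval s = ev (fun _ => x) s g := by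
    intro x s
    rw [hec]
    rfl
  have hprod : ∀ x, (∏ i, (x - e i) ≠ 0) ↔ MvPolynomial.eval (fun _ => x) Dl ≠ 0 := by
    intro x
    rw [← heD, Finset.prod_ne_zero_iff]
    constructor
    · intro h i
      exact sub_ne_zero.mp (h i (Finset.mem_univ i))
    · intro h i _
      exact sub_ne_zero.mpr (h i)
  have hmem : ∀ y : Fin 3 → ℂ, y ∈ EtC g.natDegree c e ↔ ev (fun _ => y 0) (y 1) g = 0 ∧
      y 2 * ∏ i, (y 0 - e i) = 1 := by
    intro y
    rw [← hev, Pool.Agent.X325.ET.eval_ecP]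
    rfl
  refine ⟨R.card, e, c, ⟨he, ?_⟩, ?_, ?_, ?_⟩
  · intro x hx s h0
    rw [hec]
    rw [hev] at h0
    have := hs _ _ h0 ((heD x).mp hx)
    rwa [ev_derivative] at this
  · have hV := pathConn g Dl hg hgi hD hs
    have himg : (fun z : (Fin 1 → ℂ) × ℂ => (![z.1 0, z.2, (∏ i, (z.1 0 - e i))⁻¹] : Fin 3 → ℂ)) ''
        {z | ev z.1 z.2 g = 0 ∧ MvPolynomial.eval z.1 Dl ≠ 0} = EtC g.natDegree c e := by
      ext y
      rw [hmem]
      constructor
      · rintro ⟨⟨x, τ⟩, ⟨h4, h5⟩, rfl⟩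
        have h6 : ev (fun _ => x 0) τ g = 0 := by
          rw [hfun]
          exact h4
        have h7 : ∏ i, (x 0 - e i) ≠ 0 := (hprod (x 0)).mpr (by rw [hfun]; exact h5)
        exact ⟨h6, inv_mul_cancel₀ h7⟩
      · rintro ⟨h4, h5⟩
        have h6 : ∏ i, (y 0 - e i) ≠ 0 := right_ne_zero_of_mul_eq_one h5
        refine ⟨(fun _ => y 0, y 1), ⟨h4, (hprod (y 0)).mp h6⟩, ?_⟩
        funext i
        fin_cases i
        · rfl
        · rfl
        · exact (eq_inv_of_mul_eq_one_left h5).symm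
    rw [← himg]
    refine hV.image' (continuousOn_pi.mpr (fun i => ?_))
    have hc0 : Continuous (fun z : (Fin 1 → ℂ) × ℂ => z.1 0) :=
      (continuous_apply 0).comp continuous_fst
    fin_cases i
    · exact hc0.continuousOn
    · exact continuous_snd.continuousOn
    · refine ContinuousOn.inv₀ ?_ (fun z hz => (hprod (z.1 0)).mpr (by rw [hfun]; exact hz.2))
      exact (continuous_finsetProd _ (fun i _ => hc0.sub continuous_const)).continuousOn
  · intro y hy
    rw [hmem] at hy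
    exact ⟨hy.1, (hprod _).mp (right_ne_zero_of_mul_eq_one hy.2)⟩
  · intro x s h0 h1
    refine ⟨![x, s, (∏ i, (x - e i))⁻¹], ?_, rfl, rfl⟩
    rw [hmem]
    exact ⟨h0, inv_mul_cancel₀ ((hprod x).mpr h1)⟩

/-- the étale chart `f(x, s) = 0`, `t D(x) = 1` -/
def ChartSet {k : ℕ} (f : Polynomial (MvPolynomial (Fin k) ℂ)) (D : MvPolynomial (Fin k) ℂ) :
    Set (Fin (k + 2) → ℂ) :=
  {y | (f.map (MvPolynomial.eval (fun i => y (Fin.castAdd 2 i)))).eval (y (Fin.natAdd k 0)) = 0 ∧
    y (Fin.natAdd k 1) * MvPolynomial.eval (fun i => y (Fin.castAdd 2 i)) D = 1}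

/-- the polynomial `f` is monic and has simple roots where `D` does not vanish -/
def IsEtaleChart {k : ℕ} (f : Polynomial (MvPolynomial (Fin k) ℂ))
    (D : MvPolynomial (Fin k) ℂ) : Prop :=
  f.Monic ∧ ∀ (x : Fin k → ℂ) (s : ℂ), MvPolynomial.eval x D ≠ 0 →
    (f.map (MvPolynomial.eval x)).eval s = 0 →
    (f.map (MvPolynomial.eval x)).derivative.eval s ≠ 0

/-- `x` and `x'` are in the image of a connected étale chart (of any dimension) under a regular map
`φ` to `X` such that the image of its fundamental group in the fundamental group of `X` belongs to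
the class `C` -/
def ChartLinked {n : ℕ} (X : Set (CP n)) (C : ∀ (G : Type) [Group G], Prop) (x x' : CP n) : Prop :=
  ∃ (k : ℕ) (f : Polynomial (MvPolynomial (Fin k) ℂ)) (D : MvPolynomial (Fin k) ℂ),
    IsEtaleChart f D ∧ IsPathConnected (ChartSet f D) ∧ ∃ φ : C(ChartSet f D, X),
      IsRegularMap (ChartSet f D) (fun y => (φ y).1) ∧ PiImageIn C φ ∧
      (∃ y, (φ y).1 = x) ∧ ∃ y, (φ y).1 = x'

theorem ev_map {k l : ℕ} (xt : Fin k → MvPolynomial (Fin l) ℂ) (w : Fin l → ℂ) (s : ℂ)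
    (f : Polynomial (MvPolynomial (Fin k) ℂ)) :
    ev w s (f.map (MvPolynomial.bind₁ xt).toRingHom) =
      ev (fun i => MvPolynomial.eval w (xt i)) s f := by
  unfold ev
  rw [Polynomial.map_map]
  congr 2
  refine RingHom.ext (fun z => ?_)
  exact eval_bind w xt z

theorem regular_comp {n r l : ℕ} {Y : Set (Fin r → ℂ)} {Z : Set (Fin l → ℂ)} {φ : Y → CP n}
    (hφ : IsRegularMap Y φ) (θ : Fin r → MvPolynomial (Fin l) ℂ)
    (h : ∀ z ∈ Z, (fun i => MvPolynomial.eval z (θ i)) ∈ Y) :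
    IsRegularMap Z (fun z => φ ⟨fun i => MvPolynomial.eval z.1 (θ i), h z.1 z.2⟩) := by
  obtain ⟨s, F, hF⟩ := hφ
  refine ⟨s, fun a i => MvPolynomial.bind₁ θ (F a i), fun z => ?_⟩
  have h1 : ∀ a, (fun i => MvPolynomial.eval z.1 (MvPolynomial.bind₁ θ (F a i))) =
      fun i => MvPolynomial.eval (fun j => MvPolynomial.eval z.1 (θ j)) (F a i) :=
    fun a => funext (fun i => eval_bind _ _ _)
  obtain ⟨⟨a, ha⟩, h2⟩ := hF ⟨_, h z.1 z.2⟩
  refine ⟨⟨a, by rw [h1]; exact ha⟩, fun a h3 => ?_⟩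
  have h4 : (fun i => MvPolynomial.eval (fun j => MvPolynomial.eval z.1 (θ j)) (F a i)) ≠ 0 := by
    rw [← h1]
    exact h3
  refine (h2 a h4).trans ?_
  congr 1
  exact (h1 a).symm

/-- two points of a chart joined by a lifted segment are in the image of one curve -/
theorem seg_linked {n k : ℕ} {X : Set (CP n)} {C : ∀ (G : Type) [Group G], Prop}
    (hsub : ∀ (G G' : Type) [Group G] [Group G'] (f : G →* G'), Function.Injective f → C G' → C G)
    {f : Polynomial (MvPolynomial (Fin k) ℂ)} {D : MvPolynomial (Fin k) ℂ} (hf : f.Monic)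
    (hs : ∀ x τ, ev x τ f = 0 → MvPolynomial.eval x D ≠ 0 → ev x τ (derivative f) ≠ 0)
    {φ : C(ChartSet f D, X)} (hφ : IsRegularMap (ChartSet f D) (fun y => (φ y).1))
    (hpi : PiImageIn C φ) (y y' : ChartSet f D) (S : unitInterval → ℂ) (hS : Continuous S)
    (h0 : S 0 = y.1 (Fin.natAdd k 0)) (h1 : S 1 = y'.1 (Fin.natAdd k 0))
    (hseg : ∀ t : unitInterval,
      ev ((fun i => y.1 (Fin.castAdd 2 i)) + ((t : ℝ) : ℂ) • ((fun i => y'.1 (Fin.castAdd 2 i)) -
        fun i => y.1 (Fin.castAdd 2 i))) (S t) f = 0 ∧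
      MvPolynomial.eval ((fun i => y.1 (Fin.castAdd 2 i)) + ((t : ℝ) : ℂ) •
        ((fun i => y'.1 (Fin.castAdd 2 i)) - fun i => y.1 (Fin.castAdd 2 i))) D ≠ 0) :
    CurveLinked X C (φ y).1 (φ y').1 := by
  set x₀ : Fin k → ℂ := fun i => y.1 (Fin.castAdd 2 i) with hx₀
  set x₁ : Fin k → ℂ := fun i => y'.1 (Fin.castAdd 2 i) with hx₁
  let xt : Fin k → MvPolynomial (Fin 1) ℂ := fun i =>
    MvPolynomial.C (x₀ i) + MvPolynomial.X 0 * MvPolynomial.C (x₁ i - x₀ i)
  have hxt : ∀ l : ℂ, (fun i => MvPolynomial.eval (fun _ => l) (xt i)) = x₀ + l • (x₁ - x₀) := by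
    intro l
    funext i
    simp [xt]
  let P := f.map (MvPolynomial.bind₁ xt).toRingHom
  let Dl := MvPolynomial.bind₁ xt D
  have hP : ∀ w s, ev w s P = ev (fun i => MvPolynomial.eval w (xt i)) s f := fun w s =>
    ev_map xt w s f
  have hP' : ∀ w s, ev w s (derivative P) = ev (fun i => MvPolynomial.eval w (xt i)) s
      (derivative f) := fun w s => by
    have : derivative P = (derivative f).map (MvPolynomial.bind₁ xt).toRingHom :=
      derivative_map _ _
    rw [this]
    exact ev_map xt w s (derivative f)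
  have hDl : ∀ w, MvPolynomial.eval w Dl = MvPolynomial.eval (fun i => MvPolynomial.eval w (xt i)) D :=
    fun w => eval_bind _ _ _
  obtain ⟨g, hg, hgi, hgs, ⟨h, hgh⟩, hgt⟩ := irr_factor P Dl (hf.map _) (fun x τ a b => by
    rw [hP] at a
    rw [hDl] at b
    rw [hP']
    exact hs _ _ a b) (fun t => ((t : ℝ) : ℂ)) (by fun_prop) S hS (fun t => by
      rw [hP, hDl, hxt]
      exact hseg t)
  have hDl0 : Dl ≠ 0 := by
    intro h2
    have h3 := (hseg 0).2
    rw [← hxt, ← hDl, h2, map_zero] at h3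
    exact h3 rfl
  obtain ⟨m, e, c, het, hpc, hmem, hpts⟩ := curve_one g Dl hg hgi hDl0 hgs
  let xt3 : Fin k → MvPolynomial (Fin 3) ℂ := fun i =>
    MvPolynomial.C (x₀ i) + MvPolynomial.X 0 * MvPolynomial.C (x₁ i - x₀ i)
  have hxt3 : ∀ z : Fin 3 → ℂ, (fun i => MvPolynomial.eval z (xt3 i)) =
      x₀ + (z 0) • (x₁ - x₀) := by
    intro z
    funext i
    simp [xt3]
  have hmem' : ∀ z ∈ EtC g.natDegree c e, ev (x₀ + (z 0) • (x₁ - x₀)) (z 1) f = 0 ∧
      MvPolynomial.eval (x₀ + (z 0) • (x₁ - x₀)) D ≠ 0 := by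
    intro z hz
    obtain ⟨h2, h3⟩ := hmem z hz
    rw [hDl, hxt] at h3
    refine ⟨?_, h3⟩
    rw [← hxt, ← hP, hgh, ev_mul, h2, zero_mul]
  obtain ⟨b, hb⟩ := exists_bezout (algSet_EtC (N := g.natDegree) (c := c) (e := e))
    (fun _ : Unit => MvPolynomial.bind₁ xt3 D) (fun z hz => ⟨(), by
      rw [eval_bind, hxt3]
      exact (hmem' z hz).2⟩)
  simp only [Finset.univ_unique, Finset.sum_singleton, eval_bind, hxt3] at hb
  let θ : Fin (k + 2) → MvPolynomial (Fin 3) ℂ := Fin.append xt3 ![MvPolynomial.X 1, b default]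
  have hθ : ∀ z : Fin 3 → ℂ, (fun i => MvPolynomial.eval z (θ i)) =
      Fin.append (x₀ + (z 0) • (x₁ - x₀)) ![z 1, MvPolynomial.eval z (b default)] := by
    intro z
    funext i
    refine Fin.addCases (fun i => ?_) (fun i => ?_) i
    · rw [Fin.append_left, ← hxt3]
      show MvPolynomial.eval z (Fin.append _ _ (Fin.castAdd 2 i)) = _
      rw [Fin.append_left]
    · rw [Fin.append_right]
      show MvPolynomial.eval z (Fin.append _ _ (Fin.natAdd k i)) = _
      rw [Fin.append_right]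
      fin_cases i
      · show MvPolynomial.eval z (MvPolynomial.X 1) = z 1
        exact MvPolynomial.eval_X _
      · rfl
  have hθm : ∀ z ∈ EtC g.natDegree c e, (fun i => MvPolynomial.eval z (θ i)) ∈ ChartSet f D := by
    intro z hz
    rw [hθ]
    have e1 : (fun i => Fin.append (x₀ + (z 0) • (x₁ - x₀))
        ![z 1, MvPolynomial.eval z (b default)] (Fin.castAdd 2 i)) = x₀ + (z 0) • (x₁ - x₀) :=
      funext (fun i => Fin.append_left _ _ _)
    have e2 : Fin.append (x₀ + (z 0) • (x₁ - x₀))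
        ![z 1, MvPolynomial.eval z (b default)] (Fin.natAdd k 0) = z 1 := Fin.append_right _ _ _
    have e3 : Fin.append (x₀ + (z 0) • (x₁ - x₀))
        ![z 1, MvPolynomial.eval z (b default)] (Fin.natAdd k 1) =
          MvPolynomial.eval z (b default) := Fin.append_right _ _ _
    refine ⟨?_, ?_⟩
    · rw [e1, e2]
      exact (hmem' z hz).1
    · rw [e1, e3]
      exact hb z hz
  let Θ : C(EtC g.natDegree c e, ChartSet f D) :=
    ⟨fun z => ⟨fun i => MvPolynomial.eval z.1 (θ i), hθm z.1 z.2⟩,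
      Continuous.subtype_mk (continuous_pi (fun i =>
        (MvPolynomial.continuous_eval (θ i)).comp continuous_subtype_val)) _⟩
  have huniq : ∀ (z : EtC g.natDegree c e) (u : ChartSet f D),
      x₀ + (z.1 0) • (x₁ - x₀) = (fun i => u.1 (Fin.castAdd 2 i)) →
      z.1 1 = u.1 (Fin.natAdd k 0) → Θ z = u := by
    intro z u h2 h3
    apply Subtype.ext
    show (fun i => MvPolynomial.eval z.1 (θ i)) = u.1
    have h4 := (hθm z.1 z.2).2
    have h5 := u.2.2
    rw [hθ] at h4 ⊢
    have e1 : (fun i => Fin.append (x₀ + (z.1 0) • (x₁ - x₀))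
        ![z.1 1, MvPolynomial.eval z.1 (b default)] (Fin.castAdd 2 i)) =
          x₀ + (z.1 0) • (x₁ - x₀) := funext (fun i => Fin.append_left _ _ _)
    have e3 : Fin.append (x₀ + (z.1 0) • (x₁ - x₀))
        ![z.1 1, MvPolynomial.eval z.1 (b default)] (Fin.natAdd k 1) =
          MvPolynomial.eval z.1 (b default) := Fin.append_right _ _ _
    rw [e1, e3, h2] at h4
    funext i
    refine Fin.addCases (fun i => ?_) (fun i => ?_) i
    · rw [Fin.append_left, h2]
    · rw [Fin.append_right]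
      fin_cases i
      · exact h3
      · exact mul_right_cancel₀ (right_ne_zero_of_mul_eq_one h5) (h4.trans h5.symm)
  refine ⟨g.natDegree, m, c, e, het, hpc, φ.comp Θ, regular_comp hφ θ hθm,
    fun z => range_comp_sub hsub φ Θ z (hpi _), ?_, ?_⟩
  · have h2 := hgt 0
    have h3 := (hseg 0).2
    rw [← hxt, ← hDl] at h3
    obtain ⟨z, hz, hz0, hz1⟩ := hpts _ _ h2 h3
    refine ⟨⟨z, hz⟩, ?_⟩
    show (φ (Θ ⟨z, hz⟩)).1 = (φ y).1
    rw [huniq ⟨z, hz⟩ y ?_ ?_]
    · show x₀ + (z 0) • (x₁ - x₀) = x₀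
      rw [hz0]
      simp
    · show z 1 = _
      rw [hz1, h0]
  · have h2 := hgt 1
    have h3 := (hseg 1).2
    rw [← hxt, ← hDl] at h3
    obtain ⟨z, hz, hz0, hz1⟩ := hpts _ _ h2 h3
    refine ⟨⟨z, hz⟩, ?_⟩
    show (φ (Θ ⟨z, hz⟩)).1 = (φ y').1
    rw [huniq ⟨z, hz⟩ y' ?_ ?_]
    · show x₀ + (z 0) • (x₁ - x₀) = x₁
      rw [hz0]
      simp
    · show z 1 = _
      rw [hz1, h1]

theorem curveLinked_symm {n : ℕ} {X : Set (CP n)} {C : ∀ (G : Type) [Group G], Prop}
    {x x' : CP n} (h : CurveLinked X C x x') : CurveLinked X C x' x := by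
  obtain ⟨N, m, c, e, h1, h2, φ, h3, h4, h5, h6⟩ := h
  exact ⟨N, m, c, e, h1, h2, φ, h3, h4, h6, h5⟩

/-- two points in the image of a chart are joined by a chain of curves -/
theorem chain_of_chart {n : ℕ} {X : Set (CP n)} {C : ∀ (G : Type) [Group G], Prop}
    (hsub : ∀ (G G' : Type) [Group G] [Group G'] (f : G →* G'), Function.Injective f → C G' → C G)
    {x x' : CP n} (h : ChartLinked X C x x') : Relation.ReflTransGen (CurveLinked X C) x x' := by
  obtain ⟨k, f, D, ⟨hf, hs'⟩, hcon, φ, hφ, hpi, ⟨y, rfl⟩, ⟨y', rfl⟩⟩ := h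
  have hs : ∀ x τ, ev x τ f = 0 → MvPolynomial.eval x D ≠ 0 → ev x τ (derivative f) ≠ 0 := by
    intro x τ h0 h1
    rw [ev_derivative]
    exact hs' x τ h1 h0
  have hloc : ∀ y : ChartSet f D, ∀ᶠ y' in 𝓝 y, CurveLinked X C (φ y).1 (φ y').1 := by
    intro y
    have hD : MvPolynomial.eval (fun i => y.1 (Fin.castAdd 2 i)) D ≠ 0 :=
      right_ne_zero_of_mul_eq_one y.2.2
    have h1 := loc_seg f D (fun i => y.1 (Fin.castAdd 2 i), y.1 (Fin.natAdd k 0)) y.2.1
      (hs _ _ y.2.1 hD) hD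
    have hcont : Continuous (fun u : ChartSet f D =>
        ((fun i => u.1 (Fin.castAdd 2 i), u.1 (Fin.natAdd k 0)) : (Fin k → ℂ) × ℂ)) :=
      Continuous.prodMk (continuous_pi (fun i =>
        (continuous_apply _).comp continuous_subtype_val))
        ((continuous_apply _).comp continuous_subtype_val)
    filter_upwards [(hcont.tendsto y).eventually h1] with u hu
    obtain ⟨S, h2, h3, h4, h5⟩ := hu u.2.1
    exact seg_linked hsub hf hs hφ hpi y u S h2 h3 h4 h5
  haveI : PreconnectedSpace (ChartSet f D) :=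
    (isPreconnected_iff_preconnectedSpace.mp hcon.isConnected.isPreconnected)
  let A : Set (ChartSet f D) := {u | Relation.ReflTransGen (CurveLinked X C) (φ y).1 (φ u).1}
  have hA : IsClopen A := by
    constructor
    · rw [← isOpen_compl_iff, isOpen_iff_mem_nhds]
      intro u hu
      filter_upwards [hloc u] with v hv hvA
      exact hu (hvA.tail (curveLinked_symm hv))
    · rw [isOpen_iff_mem_nhds]
      intro u hu
      filter_upwards [hloc u] with v hv
      exact Relation.ReflTransGen.tail hu hv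
  have huniv := hA.eq_univ ⟨y, Relation.ReflTransGen.refl⟩
  have : y' ∈ A := by
    rw [huniv]
    trivial
  exact this

end Pool.Agent.X316.ET
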