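import Mathlib
import Pool.Agent.X316.ET.Chart

/-! The main theorems for charts of any dimension. -/

set_option autoImplicit false

open Topology Set

namespace Pool.Agent.X316.ET

open Pool.Agent.Y193.FG Pool.Agent.Y193.CS Pool.Agent.X325.HS
open Pool.Agent.X325.ET (CurveLinked)

theorem thin_mono {n : ℕ} {X : Set (CP n)} {L L' : CP n → CP n → Prop} {x₀ : CP n}
    (h : ∀ x x', L' x x' → Relation.ReflTransGen L x x')
    (ht : IsThin X {x | Relation.ReflTransGen L x₀ x}) :
    IsThin X {x | Relation.ReflTransGen L' x₀ x} := by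
  obtain ⟨G, g1, g2, g3⟩ := ht
  refine ⟨G, g1, g2, fun v hv hv' => g3 v hv ?_⟩
  have hmono : ∀ y, Relation.ReflTransGen L' x₀ y → Relation.ReflTransGen L x₀ y := by
    intro y hy
    induction hy with
    | refl => exact Relation.ReflTransGen.refl
    | tail _ hab ih => exact ih.trans (h _ _ hab)
  exact hmono _ hv'

section

variable {n : ℕ} {ι κ : Type} [Fintype κ]
  {p : ι → MvPolynomial (Fin (n + 1)) ℂ} {q : κ → MvPolynomial (Fin (n + 1)) ℂ}
  {C : ∀ (G : Type) [Group G], Prop}

/-- chains of charts -/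
theorem main_charts (hC : IsExtClass C) (hZ : C (Multiplicative ℤ))
    (hp : ∀ i, ∃ d, (p i).IsHomogeneous d) (hq : ∀ j, ∃ d, (q j).IsHomogeneous d)
    (hs : IsSmooth (QP p q)) (hc : IsConnected (QP p q)) {x₀ : CP n} (hx₀ : x₀ ∈ QP p q)
    (hthin : ¬ IsThin (QP p q) {x | Relation.ReflTransGen
      (fun x x' => ChartLinked (QP p q) C x x' ∨ TorusLinked (QP p q) x x' ∨
        EntLinked p q x x') x₀ x})
    (x : QP p q) : Virtually C (FundamentalGroup (QP p q) x) := by
  refine main_curves hC hZ hp hq hs hc hx₀ (fun ht => hthin (thin_mono ?_ ht)) x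
  rintro y y' (h | h)
  · exact Relation.ReflTransGen.mono (fun _ _ h => Or.inl h) _ _ (chain_of_chart hC.sub h)
  · exact Relation.ReflTransGen.single (Or.inr h)

theorem main_charts_ell (hp : ∀ i, ∃ d, (p i).IsHomogeneous d)
    (hq : ∀ j, ∃ d, (q j).IsHomogeneous d)
    (hs : IsSmooth (QP p q)) (hc : IsConnected (QP p q)) {x₀ : CP n} (hx₀ : x₀ ∈ QP p q)
    (hthin : ¬ IsThin (QP p q) {x | Relation.ReflTransGen
      (fun x x' => ChartLinked (QP p q) Pool.Agent.X325.EC.Poly x x' ∨
        Pool.Agent.X316.EC.EllLinked (QP p q) x x' ∨ TorusLinked (QP p q) x x' ∨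
        EntLinked p q x x') x₀ x})
    (x : QP p q) : Virtually Pool.Agent.X325.EC.Poly (FundamentalGroup (QP p q) x) := by
  refine main_curves_ell hp hq hs hc hx₀ (fun ht => hthin (thin_mono ?_ ht)) x
  rintro y y' (h | h | h)
  · exact Relation.ReflTransGen.mono (fun _ _ h => Or.inl (Or.inl h)) _ _
      (chain_of_chart Pool.Agent.X325.EC.poly_isExtClass.sub h)
  · exact Relation.ReflTransGen.single (Or.inl (Or.inr h))
  · exact Relation.ReflTransGen.single (Or.inr h)

end

end Pool.Agent.X316.ET
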