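import Mathlib
import Pool.Agent.X316.ET.Fin

/-! Links by spaces with an atlas of étale charts. -/

set_option autoImplicit false

open Topology Set

namespace Pool.Agent.X316.ET

open Pool.Agent.Y193.FG Pool.Agent.Y193.CS Pool.Agent.X325.HS
open Pool.Agent.X325.ET (CurveLinked range_comp_sub)

/-- `x` and `x'` are in the image of a connected space `S` under a continuous map `φ` to `X` such
that the image of `π₁(S)` in `π₁(X)` belongs to the class `C`, and such that `S` is covered by open
images of connected étale charts on which `φ` is regular (for example: `S` is a smooth connected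
algebraic variety, covered by its étale charts, and `φ` is a regular map) -/
def AtlasLinked {n : ℕ} (X : Set (CP n)) (C : ∀ (G : Type) [Group G], Prop) (x x' : CP n) : Prop :=
  ∃ (S : Type) (_ : TopologicalSpace S) (_ : ConnectedSpace S) (φ : C(S, X)),
    PiImageIn C φ ∧
    (∀ s : S, ∃ (k : ℕ) (f : Polynomial (MvPolynomial (Fin k) ℂ)) (D : MvPolynomial (Fin k) ℂ),
      IsEtaleChart f D ∧ IsPathConnected (ChartSet f D) ∧ ∃ j : C(ChartSet f D, S),
        IsOpenMap j ∧ s ∈ range j ∧
        IsRegularMap (ChartSet f D) (fun y => (φ (j y)).1)) ∧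
    (∃ s, (φ s).1 = x) ∧ ∃ s, (φ s).1 = x'

theorem chartLinked_symm {n : ℕ} {X : Set (CP n)} {C : ∀ (G : Type) [Group G], Prop}
    {x x' : CP n} (h : ChartLinked X C x x') : ChartLinked X C x' x := by
  obtain ⟨k, f, D, h1, h2, φ, h3, h4, h5, h6⟩ := h
  exact ⟨k, f, D, h1, h2, φ, h3, h4, h6, h5⟩

/-- two points in the image of `S` are joined by a chain of charts -/
theorem chain_of_atlas {n : ℕ} {X : Set (CP n)} {C : ∀ (G : Type) [Group G], Prop}
    (hsub : ∀ (G G' : Type) [Group G] [Group G'] (f : G →* G'), Function.Injective f → C G' → C G)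
    {x x' : CP n} (h : AtlasLinked X C x x') : Relation.ReflTransGen (ChartLinked X C) x x' := by
  obtain ⟨S, _, _, φ, hpi, hat, ⟨s, rfl⟩, ⟨s', rfl⟩⟩ := h
  have hloc : ∀ s : S, ∀ᶠ s' in 𝓝 s, ChartLinked X C (φ s).1 (φ s').1 := by
    intro s
    obtain ⟨k, f, D, h1, h2, j, hj, ⟨u, rfl⟩, h3⟩ := hat s
    filter_upwards [hj.range_mem_nhds u] with v hv
    obtain ⟨u', rfl⟩ := hv
    exact ⟨k, f, D, h1, h2, φ.comp j, h3, fun z => range_comp_sub hsub φ j z (hpi _),
      ⟨u, rfl⟩, ⟨u', rfl⟩⟩
  let A : Set S := {u | Relation.ReflTransGen (ChartLinked X C) (φ s).1 (φ u).1}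
  have hA : IsClopen A := by
    constructor
    · rw [← isOpen_compl_iff, isOpen_iff_mem_nhds]
      intro u hu
      filter_upwards [hloc u] with v hv hvA
      exact hu (hvA.tail (chartLinked_symm hv))
    · rw [isOpen_iff_mem_nhds]
      intro u hu
      filter_upwards [hloc u] with v hv
      exact Relation.ReflTransGen.tail hu hv
  have huniv := hA.eq_univ ⟨s, Relation.ReflTransGen.refl⟩
  have : s' ∈ A := by
    rw [huniv]
    trivial
  exact this

section

variable {n : ℕ} {ι κ : Type} [Fintype κ]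
  {p : ι → MvPolynomial (Fin (n + 1)) ℂ} {q : κ → MvPolynomial (Fin (n + 1)) ℂ}
  {C : ∀ (G : Type) [Group G], Prop}

/-- chains of varieties -/
theorem main_atlas (hC : IsExtClass C) (hZ : C (Multiplicative ℤ))
    (hp : ∀ i, ∃ d, (p i).IsHomogeneous d) (hq : ∀ j, ∃ d, (q j).IsHomogeneous d)
    (hs : IsSmooth (QP p q)) (hc : IsConnected (QP p q)) {x₀ : CP n} (hx₀ : x₀ ∈ QP p q)
    (hthin : ¬ IsThin (QP p q) {x | Relation.ReflTransGen
      (fun x x' => AtlasLinked (QP p q) C x x' ∨ TorusLinked (QP p q) x x' ∨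
        EntLinked p q x x') x₀ x})
    (x : QP p q) : Virtually C (FundamentalGroup (QP p q) x) := by
  refine main_charts hC hZ hp hq hs hc hx₀ (fun ht => hthin (thin_mono ?_ ht)) x
  rintro y y' (h | h)
  · exact Relation.ReflTransGen.mono (fun _ _ h => Or.inl h) _ _ (chain_of_atlas hC.sub h)
  · exact Relation.ReflTransGen.single (Or.inr h)

theorem main_atlas_ell (hp : ∀ i, ∃ d, (p i).IsHomogeneous d)
    (hq : ∀ j, ∃ d, (q j).IsHomogeneous d)
    (hs : IsSmooth (QP p q)) (hc : IsConnected (QP p q)) {x₀ : CP n} (hx₀ : x₀ ∈ QP p q)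
    (hthin : ¬ IsThin (QP p q) {x | Relation.ReflTransGen
      (fun x x' => AtlasLinked (QP p q) Pool.Agent.X325.EC.Poly x x' ∨
        Pool.Agent.X316.EC.EllLinked (QP p q) x x' ∨ TorusLinked (QP p q) x x' ∨
        EntLinked p q x x') x₀ x})
    (x : QP p q) : Virtually Pool.Agent.X325.EC.Poly (FundamentalGroup (QP p q) x) := by
  refine main_charts_ell hp hq hs hc hx₀ (fun ht => hthin (thin_mono ?_ ht)) x
  rintro y y' (h | h)
  · exact Relation.ReflTransGen.mono (fun _ _ h => Or.inl h) _ _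
      (chain_of_atlas Pool.Agent.X325.EC.poly_isExtClass.sub h)
  · exact Relation.ReflTransGen.single (Or.inr h)

end

end Pool.Agent.X316.ET
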